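import Mathlib

/-!
# Variations of integrals of square roots
-/

namespace DWS

open Set MeasureTheory Real Filter Topology

lemma sqrt_drop {u v e : ℝ} (hu : 0 < u) (h2 : e ≤ 2 * u) (hv : v ≤ u - e) :
    √v ≤ √u - e / (2 * √u) := by
  have hs : 0 < √u := Real.sqrt_pos.2 hu
  have hsq : √u ^ 2 = u := Real.sq_sqrt hu.le
  have e1 : √u - e / (2 * √u) = (2 * u - e) / (2 * √u) := by
    rw [eq_div_iff (by positivity)]
    field_simp
    rw [hsq]
    ring
  rw [e1]
  apply Real.sqrt_le_iff.2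
  constructor
  · apply div_nonneg <;> nlinarith
  · rw [div_pow, mul_pow, hsq, le_div_iff₀ (by positivity)]
    nlinarith [sq_nonneg e]

lemma sqrt_rise {u v e : ℝ} (hu : 0 < u) (he : 0 ≤ e) (hv : v ≤ u + e) :
    √v ≤ √u + e / (2 * √u) := by
  have hs : 0 < √u := Real.sqrt_pos.2 hu
  have hsq : √u ^ 2 = u := Real.sq_sqrt hu.le
  apply Real.sqrt_le_iff.2
  constructor
  · positivity
  · have e1 : (√u + e / (2 * √u)) ^ 2 = u + e + (e / (2 * √u)) ^ 2 := by
      have : (√u + e / (2 * √u)) ^ 2 = √u ^ 2 + 2 * √u * (e / (2 * √u)) + (e / (2 * √u)) ^ 2 := by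
        ring
      rw [this, hsq, mul_div_cancel₀]
      positivity
    rw [e1]
    nlinarith [sq_nonneg (e / (2 * √u))]

/-- Lower bound for the loss when the potential decreases. -/
lemma var_drop {α β p q κ ε₀ : ℝ} {U w : ℝ → ℝ} {V : ℝ → ℝ → ℝ}
    (hαp : α ≤ p) (hpq : p ≤ q) (hqβ : q ≤ β) (hε₀ : 0 < ε₀)
    (hU : ContinuousOn U (Icc p q)) (hUpos : ∀ x ∈ Icc p q, 0 < U x)
    (hw : ContinuousOn w (Icc p q)) (hw0 : ∀ x ∈ Icc p q, 0 ≤ w x)
    (hV : ∀ ε ∈ Ioo 0 ε₀, ∀ x ∈ Icc p q, V ε x ≤ U x - ε * w x)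
    (hV' : ∀ ε ∈ Ioo 0 ε₀, ∀ x ∈ Icc α β, V ε x ≤ U x)
    (hiU : IntervalIntegrable (fun x => √(U x)) volume α β)
    (hiV : ∀ ε, IntervalIntegrable (fun x => √(V ε x)) volume α β)
    (H : ∀ ε ∈ Ioo 0 ε₀, ∫ x in α..β, √(U x) ≤ (∫ x in α..β, √(V ε x)) + κ * ε) :
    ∫ x in p..q, w x / (2 * √(U x)) ≤ κ := by
  have hαβ : α ≤ β := hαp.trans (hpq.trans hqβ)
  obtain ⟨x0, hx0, hmin⟩ := isCompact_Icc.exists_isMinOn (nonempty_Icc.2 hpq) hU
  obtain ⟨x1, hx1, hmax⟩ := isCompact_Icc.exists_isMaxOn (nonempty_Icc.2 hpq) hw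
  set m := U x0 with hm
  set M := w x1 with hM
  have hmpos : 0 < m := hUpos x0 hx0
  have hM0 : 0 ≤ M := hw0 x1 hx1
  obtain ⟨ε, hε, hε1⟩ : ∃ ε, ε ∈ Ioo 0 ε₀ ∧ ε * M ≤ 2 * m := by
    refine ⟨min (ε₀ / 2) (2 * m / (M + 1)), ⟨?_, ?_⟩, ?_⟩
    · exact lt_min (by positivity) (by positivity)
    · exact (min_le_left _ _).trans_lt (by linarith)
    · calc min (ε₀ / 2) (2 * m / (M + 1)) * M ≤ 2 * m / (M + 1) * M :=
            mul_le_mul_of_nonneg_right (min_le_right _ _) hM0
        _ = 2 * m * (M / (M + 1)) := by ring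
        _ ≤ 2 * m * 1 := by
            apply mul_le_mul_of_nonneg_left _ (by positivity)
            rw [div_le_one (by positivity)]; linarith
        _ = 2 * m := mul_one _
  have hε0 : 0 < ε := hε.1
  have hsub : Icc p q ⊆ Icc α β := Icc_subset_Icc hαp hqβ
  have hiU' : IntervalIntegrable (fun x => √(U x)) volume p q :=
    hiU.mono_set (by rw [uIcc_of_le hpq, uIcc_of_le hαβ]; exact hsub)
  have hiV' : IntervalIntegrable (fun x => √(V ε x)) volume p q :=
    (hiV ε).mono_set (by rw [uIcc_of_le hpq, uIcc_of_le hαβ]; exact hsub)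
  have hcw : ContinuousOn (fun x => w x / (2 * √(U x))) (Icc p q) := by
    refine hw.div (continuousOn_const.mul (hU.sqrt)) ?_
    intro x hx
    have := Real.sqrt_pos.2 (hUpos x hx)
    positivity
  have hiw : IntervalIntegrable (fun x => w x / (2 * √(U x))) volume p q :=
    hcw.intervalIntegrable_of_Icc hpq
  have h1 : ∫ x in p..q, ε * (w x / (2 * √(U x))) ≤ ∫ x in p..q, (√(U x) - √(V ε x)) := by
    refine intervalIntegral.integral_mono_on hpq (hiw.const_mul ε) (hiU'.sub hiV') ?_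
    intro x hx
    have h3 := sqrt_drop (u := U x) (v := V ε x) (e := ε * w x) (hUpos x hx) ?_ (hV ε hε x hx)
    · have : ε * (w x / (2 * √(U x))) = ε * w x / (2 * √(U x)) := by ring
      rw [this]; linarith
    · have h4 : w x ≤ M := hmax hx
      have h5 : m ≤ U x := hmin hx
      nlinarith
  have h2 : ∫ x in p..q, (√(U x) - √(V ε x)) ≤ ∫ x in α..β, (√(U x) - √(V ε x)) := by
    refine intervalIntegral.integral_mono_interval hαp hpq hqβ ?_ (hiU.sub (hiV ε))
    filter_upwards [ae_restrict_mem measurableSet_Ioc] with x hx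
    have := hV' ε hε x ⟨hx.1.le, hx.2⟩
    simp only [Pi.zero_apply, sub_nonneg]
    exact Real.sqrt_le_sqrt this
  rw [intervalIntegral.integral_sub hiU (hiV ε)] at h2
  rw [intervalIntegral.integral_const_mul] at h1
  have h3 := H ε hε
  have h4 : ε * ∫ x in p..q, w x / (2 * √(U x)) ≤ ε * κ := by linarith
  exact le_of_mul_le_mul_left h4 hε0

/-- Upper bound for the gain when the potential increases. -/
lemma var_rise {α β κ ε₀ C K : ℝ} {U w : ℝ → ℝ} {V : ℝ → ℝ → ℝ} {a b : ℝ → ℝ}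
    (hαβ : α ≤ β) (hε₀ : 0 < ε₀)
    (hUpos : ∀ x ∈ Ioo α β, 0 < U x) (hw0 : ∀ x ∈ Ioo α β, 0 ≤ w x)
    (hV : ∀ ε ∈ Ioo 0 ε₀, ∀ x ∈ Ioo α β, V ε x ≤ U x + ε * w x)
    (ha : ∀ ε ∈ Ioo 0 ε₀, α - C * ε ≤ a ε ∧ a ε ≤ α)
    (hb : ∀ ε ∈ Ioo 0 ε₀, β ≤ b ε ∧ b ε ≤ β + C * ε)
    (hVa : ∀ ε ∈ Ioo 0 ε₀, ∀ x ∈ Ioo (a ε) α, V ε x ≤ K * ε)
    (hVb : ∀ ε ∈ Ioo 0 ε₀, ∀ x ∈ Ioo β (b ε), V ε x ≤ K * ε)
    (hiU : IntervalIntegrable (fun x => √(U x)) volume α β)
    (hiw : IntervalIntegrable (fun x => w x / (2 * √(U x))) volume α β)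
    (hiV : ∀ ε x y, IntervalIntegrable (fun x => √(V ε x)) volume x y)
    (H : ∀ ε ∈ Ioo 0 ε₀, (∫ x in α..β, √(U x)) + κ * ε ≤ ∫ x in (a ε)..(b ε), √(V ε x)) :
    κ ≤ ∫ x in α..β, w x / (2 * √(U x)) := by
  set I := ∫ x in α..β, w x / (2 * √(U x)) with hI
  have key : ∀ ε ∈ Ioo 0 ε₀, κ ≤ I + 2 * C * √(K * ε) := by
    intro ε hε
    have hε0 : 0 < ε := hε.1
    have h0 := H ε hε
    have hsplit : ∫ x in (a ε)..(b ε), √(V ε x)
        = (∫ x in (a ε)..α, √(V ε x)) + (∫ x in α..β, √(V ε x)) + ∫ x in β..(b ε), √(V ε x) := by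
      rw [intervalIntegral.integral_add_adjacent_intervals (hiV ε _ _) (hiV ε _ _),
        intervalIntegral.integral_add_adjacent_intervals (hiV ε _ _) (hiV ε _ _)]
    have h1 : ∫ x in (a ε)..α, √(V ε x) ≤ C * ε * √(K * ε) := by
      have hle : ∫ x in (a ε)..α, √(V ε x) ≤ ∫ x in (a ε)..α, √(K * ε) := by
        refine intervalIntegral.integral_mono_on_of_le_Ioo (ha ε hε).2 (hiV ε _ _) (by simp) ?_
        intro x hx
        exact Real.sqrt_le_sqrt (hVa ε hε x hx)
      rw [intervalIntegral.integral_const, smul_eq_mul] at hle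
      have : (α - a ε) * √(K * ε) ≤ C * ε * √(K * ε) :=
        mul_le_mul_of_nonneg_right (by linarith [(ha ε hε).1]) (Real.sqrt_nonneg _)
      linarith
    have h2 : ∫ x in β..(b ε), √(V ε x) ≤ C * ε * √(K * ε) := by
      have hle : ∫ x in β..(b ε), √(V ε x) ≤ ∫ x in β..(b ε), √(K * ε) := by
        refine intervalIntegral.integral_mono_on_of_le_Ioo (hb ε hε).1 (hiV ε _ _) (by simp) ?_
        intro x hx
        exact Real.sqrt_le_sqrt (hVb ε hε x hx)
      rw [intervalIntegral.integral_const, smul_eq_mul] at hle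
      have : (b ε - β) * √(K * ε) ≤ C * ε * √(K * ε) :=
        mul_le_mul_of_nonneg_right (by linarith [(hb ε hε).2]) (Real.sqrt_nonneg _)
      linarith
    have h3 : ∫ x in α..β, √(V ε x) ≤ (∫ x in α..β, √(U x)) + ε * I := by
      rw [hI, ← intervalIntegral.integral_const_mul,
        ← intervalIntegral.integral_add hiU (hiw.const_mul ε)]
      refine intervalIntegral.integral_mono_on_of_le_Ioo hαβ (hiV ε _ _)
        (hiU.add (hiw.const_mul ε)) ?_
      intro x hx
      have h4 := sqrt_rise (hUpos x hx) (mul_nonneg hε0.le (hw0 x hx)) (hV ε hε x hx)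
      have : ε * (w x / (2 * √(U x))) = ε * w x / (2 * √(U x)) := by ring
      rw [this]; exact h4
    have h5 : ε * κ ≤ ε * (I + 2 * C * √(K * ε)) := by nlinarith
    exact le_of_mul_le_mul_left h5 hε0
  have hlim : Tendsto (fun ε : ℝ => I + 2 * C * √(K * ε)) (𝓝[>] 0) (𝓝 I) := by
    have : Continuous (fun ε : ℝ => I + 2 * C * √(K * ε)) := by fun_prop
    have h1 := (this.tendsto 0).mono_left (nhdsWithin_le_nhds (s := Ioi 0))
    simpa using h1
  refine ge_of_tendsto hlim ?_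
  filter_upwards [Ioo_mem_nhdsGT hε₀] with ε hε
  exact key ε hε

/-- A degenerate zero is at least quadratic. -/
lemma quad_bound {U : ℝ → ℝ} {e : ℝ} (hs : ContDiffAt ℝ (⊤ : ℕ∞) U e) (h0 : U e = 0)
    (hd : deriv U e = 0) : ∃ C > 0, ∃ δ > 0, ∀ x, |x - e| < δ → |U x| ≤ C * (x - e) ^ 2 := by
  have hs2 : ContDiffAt ℝ 1 (deriv U) e := by
    have : ContDiffAt ℝ (⊤ : ℕ∞) (deriv U) e := hs.derivWithin (by simp)
    exact this.of_le (by exact_mod_cast le_top)
  obtain ⟨K, t, ht, hK⟩ := hs2.exists_lipschitzOnWith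
  have hev : ∀ᶠ x in 𝓝 e, DifferentiableAt ℝ U x := by
    have h1 : ContDiffAt ℝ 1 U e := hs.of_le (by exact_mod_cast le_top)
    filter_upwards [h1.eventually (by simp)] with x hx
    exact hx.differentiableAt (by simp)
  obtain ⟨δ, hδ, hball⟩ := Metric.mem_nhds_iff.1 (Filter.inter_mem ht hev)
  refine ⟨K + 1, by positivity, δ, hδ, ?_⟩
  intro x hx
  have hseg : ∀ y ∈ segment ℝ e x, |y - e| ≤ |x - e| := by
    intro y hy
    rw [segment_eq_image'] at hy
    obtain ⟨s, hs, rfl⟩ := hy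
    have : e + s • (x - e) - e = s * (x - e) := by rw [smul_eq_mul]; ring
    rw [this, abs_mul, abs_of_nonneg hs.1]
    calc s * |x - e| ≤ 1 * |x - e| := mul_le_mul_of_nonneg_right hs.2 (abs_nonneg _)
      _ = _ := one_mul _
  have hin : ∀ y ∈ segment ℝ e x, y ∈ t ∧ DifferentiableAt ℝ U y := by
    intro y hy
    apply hball
    rw [Metric.mem_ball, Real.dist_eq]
    exact (hseg y hy).trans_lt hx
  have het : e ∈ t := (hin e (left_mem_segment ℝ e x)).1
  have hbound : ∀ y ∈ segment ℝ e x, ‖deriv U y‖ ≤ K * |x - e| := by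
    intro y hy
    have h1 := hK.dist_le_mul y (hin y hy).1 e het
    rw [Real.dist_eq, Real.dist_eq, hd, sub_zero] at h1
    rw [Real.norm_eq_abs]
    exact h1.trans (mul_le_mul_of_nonneg_left (hseg y hy) K.coe_nonneg)
  have h2 := (convex_segment (𝕜 := ℝ) e x).norm_image_sub_le_of_norm_deriv_le
    (fun y hy => (hin y hy).2) hbound (left_mem_segment ℝ e x) (right_mem_segment ℝ e x)
  rw [h0, sub_zero, Real.norm_eq_abs, Real.norm_eq_abs] at h2
  calc |U x| ≤ K * |x - e| * |x - e| := h2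
    _ = K * (x - e) ^ 2 := by rw [mul_assoc, ← sq, sq_abs]
    _ ≤ (K + 1) * (x - e) ^ 2 := by nlinarith [sq_nonneg (x - e)]

/-- If the integral of `1/√U` stays bounded, the right end is transversal. -/
lemma nondeg_right {α β κ δ₀ : ℝ} {U : ℝ → ℝ} (hδ₀ : 0 < δ₀) (hab : α < β)
    (hs : ContDiffAt ℝ (⊤ : ℕ∞) U β) (h0 : U β = 0) (hc : ContinuousOn U (Ioo α β))
    (hpos : ∀ x ∈ Ioo α β, 0 < U x)
    (hb : ∀ p q, α < p → β - δ₀ < p → p ≤ q → q < β → ∫ x in p..q, 1 / (2 * √(U x)) ≤ κ) :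
    deriv U β < 0 := by
  have hdiff : HasDerivAt U (deriv U β) β := (hs.differentiableAt (by simp)).hasDerivAt
  have hle : deriv U β ≤ 0 := by
    by_contra hcon
    push Not at hcon
    have h2 : Tendsto (slope U β) (𝓝[<] β) (𝓝 (deriv U β)) :=
      (hasDerivAt_iff_tendsto_slope.1 hdiff).mono_left
        (nhdsWithin_mono β (fun x hx => (ne_of_lt hx)))
    have h3 : ∀ᶠ x in 𝓝[<] β, slope U β x ≤ 0 := by
      filter_upwards [Ioo_mem_nhdsLT hab] with x hx
      rw [slope_def_field, h0, sub_zero]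
      exact (div_neg_of_pos_of_neg (hpos x hx) (by linarith [hx.2])).le
    exact absurd (le_of_tendsto h2 h3) (by linarith)
  rcases hle.lt_or_eq with h1 | h1
  · exact h1
  exfalso
  obtain ⟨C, hC, δ, hδ, hq⟩ := quad_bound hs h0 h1
  -- choose the interval
  obtain ⟨p, hp1, hp2, hp3, hp4⟩ : ∃ p, α < p ∧ β - δ₀ < p ∧ β - δ < p ∧ p < β := by
    refine ⟨(max α (max (β - δ₀) (β - δ)) + β) / 2, ?_, ?_, ?_, ?_⟩
    all_goals
      have e1 := le_max_left α (max (β - δ₀) (β - δ))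
      have e2 := le_max_left (β - δ₀) (β - δ)
      have e3 := le_max_right (β - δ₀) (β - δ)
      have e4 := le_max_right α (max (β - δ₀) (β - δ))
      have e5 : max α (max (β - δ₀) (β - δ)) < β := max_lt hab (max_lt (by linarith) (by linarith))
      linarith
  have hsC : 0 < √C := Real.sqrt_pos.2 hC
  set A := 2 * √C * (|κ| + 1) with hA
  have hApos : 0 < A := by positivity
  set q := β - (β - p) * exp (-A) with hqdef
  have hexp : exp (-A) < 1 := by
    rw [exp_lt_one_iff]; linarith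
  have hexp0 := exp_pos (-A)
  have hbp : 0 < β - p := by linarith
  have hq1 : p ≤ q := by rw [hqdef]; nlinarith
  have hq2 : q < β := by rw [hqdef]; nlinarith
  have hub := hb p q hp1 hp2 hq1 hq2
  have hpos' : ∀ x ∈ Icc p q, 0 < U x := fun x hx => hpos x ⟨by linarith [hx.1], by linarith [hx.2]⟩
  have hint1 : IntervalIntegrable (fun x => 1 / (2 * √(U x))) volume p q := by
    apply ContinuousOn.intervalIntegrable_of_Icc hq1
    refine continuousOn_const.div (continuousOn_const.mul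
      ((hc.mono fun x hx => ⟨by linarith [hx.1], by linarith [hx.2]⟩).sqrt)) ?_
    intro x hx
    have := Real.sqrt_pos.2 (hpos' x hx)
    positivity
  have hcont2 : ContinuousOn (fun x => 1 / (2 * √C) * (1 / (β - x))) (Icc p q) := by
    refine continuousOn_const.mul (continuousOn_const.div (by fun_prop) ?_)
    intro x hx
    have : 0 < β - x := by linarith [hx.2]
    exact this.ne'
  have hint2 := hcont2.intervalIntegrable_of_Icc hq1 (μ := volume)
  have hlow : ∫ x in p..q, 1 / (2 * √C) * (1 / (β - x)) ≤ ∫ x in p..q, 1 / (2 * √(U x)) := by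
    refine intervalIntegral.integral_mono_on hq1 hint2 hint1 ?_
    intro x hx
    have h3 : 0 < β - x := by linarith [hx.2]
    have h4 : |x - β| < δ := by
      rw [abs_sub_comm, abs_of_pos h3]; linarith [hx.1]
    have h5 := hq x h4
    have h6 : √(U x) ≤ √C * (β - x) := by
      rw [← Real.sqrt_sq h3.le, ← Real.sqrt_mul hC.le]
      apply Real.sqrt_le_sqrt
      have e1 : (β - x) ^ 2 = (x - β) ^ 2 := by ring
      rw [e1]
      exact (le_abs_self _).trans h5
    have h7 := Real.sqrt_pos.2 (hpos' x hx)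
    have e2 : 1 / (2 * √C) * (1 / (β - x)) = 1 / (2 * √C * (β - x)) := by field_simp
    rw [e2]
    apply one_div_le_one_div_of_le (by positivity)
    nlinarith
  have hval : ∫ x in p..q, 1 / (2 * √C) * (1 / (β - x)) = 1 / (2 * √C) * A := by
    rw [intervalIntegral.integral_const_mul]
    congr 1
    have hder : ∀ x ∈ uIcc p q, HasDerivAt (fun x => -log (β - x)) (1 / (β - x)) x := by
      intro x hx
      rw [uIcc_of_le hq1] at hx
      have h3 : β - x ≠ 0 := by
        have : 0 < β - x := by linarith [hx.2]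
        exact this.ne'
      have h4 := (((hasDerivAt_id x).const_sub β).log h3).neg
      refine h4.congr_deriv ?_
      simp only [id]
      field_simp
    rw [intervalIntegral.integral_eq_sub_of_hasDerivAt hder]
    · have : β - q = (β - p) * exp (-A) := by rw [hqdef]; ring
      rw [this, log_mul hbp.ne' hexp0.ne', log_exp]
      ring
    · apply ContinuousOn.intervalIntegrable_of_Icc hq1
      refine continuousOn_const.div (by fun_prop) ?_
      intro x hx
      have : 0 < β - x := by linarith [hx.2]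
      exact this.ne'
  rw [hval] at hlow
  have : 1 / (2 * √C) * A = |κ| + 1 := by rw [hA]; field_simp
  rw [this] at hlow
  have := le_abs_self κ
  linarith

/-- If the integral of `1/√U` stays bounded, the left end is transversal. -/
lemma nondeg_left {α β κ δ₀ : ℝ} {U : ℝ → ℝ} (hδ₀ : 0 < δ₀) (hab : α < β)
    (hs : ContDiffAt ℝ (⊤ : ℕ∞) U α) (h0 : U α = 0) (hc : ContinuousOn U (Ioo α β))
    (hpos : ∀ x ∈ Ioo α β, 0 < U x)
    (hb : ∀ p q, α < p → q < α + δ₀ → p ≤ q → q < β → ∫ x in p..q, 1 / (2 * √(U x)) ≤ κ) :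
    0 < deriv U α := by
  have h1 : deriv (fun x => U (-x)) (-α) = - deriv U α := by
    have := deriv_comp_neg U (-α)
    rw [neg_neg] at this
    exact this
  have h2 : deriv (fun x => U (-x)) (-α) < 0 := by
    refine nondeg_right (α := -β) (β := -α) (κ := κ) (δ₀ := δ₀) hδ₀ (by linarith) ?_ ?_ ?_ ?_ ?_
    · have h3 : ContDiffAt ℝ (⊤ : ℕ∞) U (- -α) := by rw [neg_neg]; exact hs
      exact h3.comp (-α) contDiffAt_id.neg
    · rw [neg_neg, h0]
    · refine hc.comp continuousOn_neg ?_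
      intro x hx
      exact ⟨by linarith [hx.2], by linarith [hx.1]⟩
    · intro x hx
      exact hpos _ ⟨by linarith [hx.2], by linarith [hx.1]⟩
    · intro p q a1 a2 a3 a4
      have h4 := intervalIntegral.integral_comp_neg (a := p) (b := q)
        (fun x => 1 / (2 * √(U x)))
      rw [h4]
      exact hb (-q) (-p) (by linarith) (by linarith) (by linarith) (by linarith)
  rw [h1] at h2
  linarith

end DWS
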