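import Pool.Agent.DWS.Defs
import Pool.Agent.DWS.Var

/-!
# Potentials, wells and the functional
-/

namespace DWS

open Set MeasureTheory Real Filter Topology

/-- `1 - V_c`. -/
noncomputable def pot (f h : ℝ → ℝ) (c d x : ℝ) : ℝ := 1 - c ^ 2 / f x ^ 2 - d ^ 2 / h x ^ 2

/-- `f² h² (V_c - 1)`. -/
noncomputable def poly (f h : ℝ → ℝ) (c d x : ℝ) : ℝ :=
  c ^ 2 * h x ^ 2 + d ^ 2 * f x ^ 2 - f x ^ 2 * h x ^ 2

/-- The integral of the square root. -/
noncomputable def act (f h : ℝ → ℝ) (c d α β : ℝ) : ℝ := ∫ x in α..β, √(pot f h c d x)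

/-- The functional. -/
noncomputable def fun1 (f h : ℝ → ℝ) (c d α β : ℝ) : ℝ := 2 * act f h c d α β + π * (c + d)

/-- Admissible data: momenta `c, d` and an interval `[α, β]`. -/
structure Adm (L : ℝ) (f h : ℝ → ℝ) (a c d α β : ℝ) : Prop where
  hc : 0 ≤ c
  hd : 0 ≤ d
  hcd : c + d ≤ a
  hα : 0 ≤ α
  hαβ : α ≤ β
  hβ : β ≤ L
  pα : 0 ≤ poly f h c d α
  pβ : 0 ≤ poly f h c d β
  fα : f α ^ 2 ≤ c * (c + d)
  hβ2 : h β ^ 2 ≤ d * (c + d)

section basic
variable {f h : ℝ → ℝ} {c d x : ℝ}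

lemma pot_le_one : pot f h c d x ≤ 1 := by
  unfold pot
  have h1 : 0 ≤ c ^ 2 / f x ^ 2 := by positivity
  have h2 : 0 ≤ d ^ 2 / h x ^ 2 := by positivity
  linarith

lemma sqrt_pot_le_one : √(pot f h c d x) ≤ 1 := by
  rw [← Real.sqrt_one]
  exact Real.sqrt_le_sqrt pot_le_one

lemma pot_eq (hf : f x ≠ 0) (hh : h x ≠ 0) :
    pot f h c d x = - poly f h c d x / (f x ^ 2 * h x ^ 2) := by
  unfold pot poly
  field_simp
  ring

lemma pot_pos_iff (hf : f x ≠ 0) (hh : h x ≠ 0) : 0 < pot f h c d x ↔ poly f h c d x < 0 := by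
  rw [pot_eq hf hh, lt_div_iff₀ (by positivity), zero_mul]
  constructor <;> intro h1 <;> linarith

lemma pot_nonpos_iff (hf : f x ≠ 0) (hh : h x ≠ 0) : pot f h c d x ≤ 0 ↔ 0 ≤ poly f h c d x := by
  rw [← not_lt, pot_pos_iff hf hh, not_lt]

lemma pot_zero_iff (hf : f x ≠ 0) (hh : h x ≠ 0) : pot f h c d x = 0 ↔ poly f h c d x = 0 := by
  rw [pot_eq hf hh, div_eq_zero_iff]
  constructor
  · rintro (h1 | h1)
    · linarith
    · exact absurd h1 (by positivity)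
  · intro h1; left; linarith

lemma pot_anti {c' d' : ℝ} (h1 : c ^ 2 ≤ c' ^ 2) (h2 : d ^ 2 ≤ d' ^ 2) :
    pot f h c' d' x ≤ pot f h c d x := by
  unfold pot
  have e1 : c ^ 2 / f x ^ 2 ≤ c' ^ 2 / f x ^ 2 := div_le_div_of_nonneg_right h1 (by positivity)
  have e2 : d ^ 2 / h x ^ 2 ≤ d' ^ 2 / h x ^ 2 := div_le_div_of_nonneg_right h2 (by positivity)
  linarith

/-- Dichotomy. -/
lemma dich (hc : 0 ≤ c) (hd : 0 ≤ d) (hp : 0 ≤ poly f h c d x) :
    f x ^ 2 ≤ c * (c + d) ∨ h x ^ 2 ≤ d * (c + d) := by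
  by_contra hcon
  push Not at hcon
  obtain ⟨h1, h2⟩ := hcon
  unfold poly at hp
  set X := f x ^ 2 - c * (c + d) with hX
  set Y := h x ^ 2 - d * (c + d) with hY
  have hXp : 0 < X := by linarith
  have hYp : 0 < Y := by linarith
  have e1 : f x ^ 2 = c * (c + d) + X := by linarith
  have e2 : h x ^ 2 = d * (c + d) + Y := by linarith
  rw [e1, e2] at hp
  have e3 : c ^ 2 * (d * (c + d) + Y) + d ^ 2 * (c * (c + d) + X)
      - (c * (c + d) + X) * (d * (c + d) + Y) = -(c * d * Y + c * d * X + X * Y) := by ring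
  rw [e3] at hp
  have h3 : 0 < X * Y := mul_pos hXp hYp
  have h4 : 0 ≤ c * d * Y := by positivity
  have h5 : 0 ≤ c * d * X := by positivity
  linarith

/-- The two cases exclude each other. -/
lemma excl {a : ℝ} (hcd0 : 0 ≤ c + d) (hcd : c + d ≤ a) (hρ : a ^ 2 < f x ^ 2 + h x ^ 2) :
    ¬ (f x ^ 2 ≤ c * (c + d) ∧ h x ^ 2 ≤ d * (c + d)) := by
  rintro ⟨h1, h2⟩
  have : f x ^ 2 + h x ^ 2 ≤ (c + d) ^ 2 := by nlinarith
  nlinarith

end basic

section
variable {L : ℝ} {f h : ℝ → ℝ}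

lemma Profile.f_zero (H : Profile L f h) : f 0 = 0 := by
  have := H.f_odd 0
  rw [neg_zero] at this
  linarith

lemma Profile.h_L (H : Profile L f h) : h L = 0 := by
  have := H.h_odd L
  rw [show 2 * L - L = L by ring] at this
  linarith

lemma Profile.fc (H : Profile L f h) : Continuous f := H.smooth_f.continuous
lemma Profile.hc (H : Profile L f h) : Continuous h := H.smooth_h.continuous
lemma Profile.fdiff (H : Profile L f h) : Differentiable ℝ f := H.smooth_f.differentiable (by simp)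
lemma Profile.hdiff (H : Profile L f h) : Differentiable ℝ h := H.smooth_h.differentiable (by simp)

lemma Profile.f_nonneg (H : Profile L f h) {x : ℝ} (h0 : 0 ≤ x) (hL : x ≤ L) : 0 ≤ f x := by
  rcases eq_or_lt_of_le h0 with h1 | h1
  · rw [← h1, H.f_zero]
  · exact (H.f_pos x h1 hL).le

lemma Profile.h_nonneg (H : Profile L f h) {x : ℝ} (h0 : 0 ≤ x) (hL : x ≤ L) : 0 ≤ h x := by
  rcases eq_or_lt_of_le hL with h1 | h1
  · rw [h1, H.h_L]
  · exact (H.h_pos x h0 h1).le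

lemma Profile.deriv_h_zero (H : Profile L f h) : deriv h 0 = 0 := by
  have h1 : (fun x => h (-x)) = h := funext H.h_even
  have h2 := deriv_comp_neg h 0
  rw [h1, neg_zero] at h2
  linarith

lemma Profile.deriv_f_L (H : Profile L f h) : deriv f L = 0 := by
  have h1 : (fun x => f (2 * L - x)) = f := funext H.f_even
  have h2 := deriv_comp_const_sub (f := f) (2 * L) L
  rw [h1, show 2 * L - L = L by ring] at h2
  linarith

/-- Exchange of the two axes. -/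
lemma Profile.swap (H : Profile L f h) : Profile L (fun x => h (L - x)) (fun x => f (L - x)) := by
  refine ⟨H.L_pos, ?_, ?_, ?_, ?_, ?_, ?_, ?_, ?_, ?_, ?_⟩
  · exact H.smooth_h.comp (contDiff_const.sub contDiff_id)
  · exact H.smooth_f.comp (contDiff_const.sub contDiff_id)
  · intro r
    have := H.h_odd (L - r)
    rw [show 2 * L - (L - r) = L - -r by ring] at this
    simpa using this
  · intro r
    have := H.h_even (L - r)
    rw [show -(L - r) = L - (2 * L - r) by ring] at this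
    simpa using this
  · intro r
    have := H.f_even (L - r)
    rw [show 2 * L - (L - r) = L - -r by ring] at this
    simpa using this
  · intro r
    have := H.f_odd (L - r)
    rw [show -(L - r) = L - (2 * L - r) by ring] at this
    simpa using this
  · intro r h1 h2; exact H.h_pos _ (by linarith) (by linarith)
  · intro r h1 h2; exact H.f_pos _ (by linarith) (by linarith)
  · have := deriv_comp_const_sub (f := h) L 0
    rw [sub_zero, H.deriv_L] at this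
    rw [this]; norm_num
  · have := deriv_comp_const_sub (f := f) L L
    rw [sub_self, H.deriv_zero] at this
    rw [this]

lemma Profile.pot_meas (H : Profile L f h) (c d : ℝ) : Measurable (pot f h c d) := by
  have hf := H.fc.measurable
  have hh := H.hc.measurable
  unfold pot
  fun_prop

lemma Profile.sqrt_meas (H : Profile L f h) (c d : ℝ) : Measurable (fun x => √(pot f h c d x)) :=
  (H.pot_meas c d).sqrt

lemma Profile.ii (H : Profile L f h) (c d x y : ℝ) :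
    IntervalIntegrable (fun x => √(pot f h c d x)) volume x y := by
  refine (intervalIntegrable_const (c := (1 : ℝ))).mono_fun (H.sqrt_meas c d).aestronglyMeasurable
    (Eventually.of_forall fun t => ?_)
  beta_reduce
  rw [Real.norm_of_nonneg (Real.sqrt_nonneg _), norm_one]
  exact sqrt_pot_le_one

lemma Profile.poly_cont (H : Profile L f h) (c d : ℝ) : Continuous (poly f h c d) := by
  have hf := H.fc
  have hh := H.hc
  unfold poly
  fun_prop

lemma Profile.act_mono (H : Profile L f h) {c d α β α' β' : ℝ} (h1 : α ≤ α') (h2 : α' ≤ β')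
    (h3 : β' ≤ β) : act f h c d α' β' ≤ act f h c d α β := by
  unfold act
  exact intervalIntegral.integral_mono_interval h1 h2 h3
    (Eventually.of_forall fun x => Real.sqrt_nonneg _) (H.ii c d α β)

lemma act_nonneg {f h : ℝ → ℝ} {c d α β : ℝ} (h1 : α ≤ β) : 0 ≤ act f h c d α β :=
  intervalIntegral.integral_nonneg h1 fun x _ => Real.sqrt_nonneg _

/-- Joint continuity of the primitive. -/
lemma Profile.prim_cont (H : Profile L f h) :
    Continuous (fun p : (ℝ × ℝ) × ℝ => ∫ x in (0 : ℝ)..p.2, √(pot f h p.1.1 p.1.2 x)) := by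
  have hlip : ∀ q : ℝ × ℝ, LipschitzWith 1 (fun y => ∫ x in (0 : ℝ)..y, √(pot f h q.1 q.2 x)) := by
    intro q
    refine LipschitzWith.of_dist_le_mul fun y z => ?_
    rw [NNReal.coe_one, one_mul, Real.dist_eq, Real.dist_eq,
      intervalIntegral.integral_interval_sub_left (H.ii _ _ _ _) (H.ii _ _ _ _)]
    have := intervalIntegral.norm_integral_le_of_norm_le_const (a := z) (b := y) (C := 1)
      (f := fun x => √(pot f h q.1 q.2 x)) (fun x _ => by
        rw [Real.norm_of_nonneg (Real.sqrt_nonneg _)]; exact sqrt_pot_le_one)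
    rw [one_mul, Real.norm_eq_abs] at this
    exact this
  have hcont : ∀ y : ℝ, Continuous (fun q : ℝ × ℝ => ∫ x in (0 : ℝ)..y, √(pot f h q.1 q.2 x)) := by
    intro y
    refine intervalIntegral.continuous_of_dominated_interval (bound := fun _ => 1) ?_ ?_ ?_ ?_
    · intro q; exact (H.sqrt_meas _ _).aestronglyMeasurable
    · intro q
      refine Eventually.of_forall fun x _ => ?_
      rw [Real.norm_of_nonneg (Real.sqrt_nonneg _)]; exact sqrt_pot_le_one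
    · exact intervalIntegrable_const
    · refine Eventually.of_forall fun x _ => ?_
      unfold pot
      fun_prop
  exact continuous_prod_of_continuous_lipschitzWith'
    (fun p : (ℝ × ℝ) × ℝ => ∫ x in (0 : ℝ)..p.2, √(pot f h p.1.1 p.1.2 x)) 1 hlip hcont

lemma Profile.act_eq (H : Profile L f h) (c d α β : ℝ) :
    act f h c d α β = (∫ x in (0 : ℝ)..β, √(pot f h c d x)) - ∫ x in (0 : ℝ)..α, √(pot f h c d x) := by
  unfold act
  rw [intervalIntegral.integral_interval_sub_left (H.ii _ _ _ _) (H.ii _ _ _ _)]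

lemma Profile.fun1_cont (H : Profile L f h) :
    Continuous (fun p : (ℝ × ℝ) × (ℝ × ℝ) => fun1 f h p.1.1 p.1.2 p.2.1 p.2.2) := by
  have e : (fun p : (ℝ × ℝ) × (ℝ × ℝ) => fun1 f h p.1.1 p.1.2 p.2.1 p.2.2)
      = fun p => 2 * ((∫ x in (0 : ℝ)..p.2.2, √(pot f h p.1.1 p.1.2 x))
        - ∫ x in (0 : ℝ)..p.2.1, √(pot f h p.1.1 p.1.2 x)) + π * (p.1.1 + p.1.2) := by
    funext p
    unfold fun1
    rw [H.act_eq]
  rw [e]
  have h1 : Continuous (fun p : (ℝ × ℝ) × (ℝ × ℝ) => ∫ x in (0 : ℝ)..p.2.2,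
      √(pot f h p.1.1 p.1.2 x)) :=
    H.prim_cont.comp (f := fun p : (ℝ × ℝ) × (ℝ × ℝ) => (p.1, p.2.2)) (by fun_prop)
  have h2 : Continuous (fun p : (ℝ × ℝ) × (ℝ × ℝ) => ∫ x in (0 : ℝ)..p.2.1,
      √(pot f h p.1.1 p.1.2 x)) :=
    H.prim_cont.comp (f := fun p : (ℝ × ℝ) × (ℝ × ℝ) => (p.1, p.2.1)) (by fun_prop)
  fun_prop

/-- The whole interval is admissible. -/
lemma Profile.adm_full (H : Profile L f h) {a c d : ℝ} (hc : 0 ≤ c) (hd : 0 ≤ d)
    (hcd : c + d ≤ a) : Adm L f h a c d 0 L := by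
  refine ⟨hc, hd, hcd, le_rfl, H.L_pos.le, le_rfl, ?_, ?_, ?_, ?_⟩
  · unfold poly; rw [H.f_zero]; nlinarith [mul_nonneg (sq_nonneg c) (sq_nonneg (h 0))]
  · unfold poly; rw [H.h_L]; nlinarith [mul_nonneg (sq_nonneg d) (sq_nonneg (f L))]
  · rw [H.f_zero]; have : 0 ≤ c * (c + d) := by positivity
    simpa using this
  · rw [H.h_L]; have : 0 ≤ d * (c + d) := by positivity
    simpa using this

/-- The minimum of the functional over the admissible data. -/
lemma Profile.exists_min (H : Profile L f h) {a : ℝ} (ha : 0 ≤ a) :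
    ∃ c d α β, Adm L f h a c d α β ∧ ∀ c' d' α' β', Adm L f h a c' d' α' β' →
      fun1 f h c d α β ≤ fun1 f h c' d' α' β' := by
  have hf := H.fc
  have hh := H.hc
  set K : Set ((ℝ × ℝ) × (ℝ × ℝ)) := {p | Adm L f h a p.1.1 p.1.2 p.2.1 p.2.2} with hK
  have hsub : K ⊆ (Icc 0 a ×ˢ Icc 0 a) ×ˢ (Icc 0 L ×ˢ Icc 0 L) := by
    rintro p (hp : Adm L f h a p.1.1 p.1.2 p.2.1 p.2.2)
    refine ⟨⟨⟨hp.hc, ?_⟩, ⟨hp.hd, ?_⟩⟩, ⟨⟨hp.hα, ?_⟩, ⟨?_, hp.hβ⟩⟩⟩
    · linarith [hp.hcd, hp.hd]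
    · linarith [hp.hcd, hp.hc]
    · linarith [hp.hαβ, hp.hβ]
    · linarith [hp.hαβ, hp.hα]
  have hclosed : IsClosed K := by
    have e : K = {p | 0 ≤ p.1.1} ∩ {p | 0 ≤ p.1.2} ∩ {p | p.1.1 + p.1.2 ≤ a} ∩ {p | 0 ≤ p.2.1}
        ∩ {p | p.2.1 ≤ p.2.2} ∩ {p | p.2.2 ≤ L} ∩ {p | 0 ≤ poly f h p.1.1 p.1.2 p.2.1}
        ∩ {p | 0 ≤ poly f h p.1.1 p.1.2 p.2.2} ∩ {p | f p.2.1 ^ 2 ≤ p.1.1 * (p.1.1 + p.1.2)}
        ∩ {p | h p.2.2 ^ 2 ≤ p.1.2 * (p.1.1 + p.1.2)} := by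
      ext p
      simp only [hK, mem_inter_iff, mem_ofPred_eq]
      constructor
      · rintro ⟨h1, h2, h3, h4, h5, h6, h7, h8, h9, h10⟩
        exact ⟨⟨⟨⟨⟨⟨⟨⟨⟨h1, h2⟩, h3⟩, h4⟩, h5⟩, h6⟩, h7⟩, h8⟩, h9⟩, h10⟩
      · rintro ⟨⟨⟨⟨⟨⟨⟨⟨⟨h1, h2⟩, h3⟩, h4⟩, h5⟩, h6⟩, h7⟩, h8⟩, h9⟩, h10⟩
        exact ⟨h1, h2, h3, h4, h5, h6, h7, h8, h9, h10⟩
    rw [e]
    unfold poly
    refine IsClosed.inter (IsClosed.inter (IsClosed.inter (IsClosed.inter (IsClosed.inter
      (IsClosed.inter (IsClosed.inter (IsClosed.inter (IsClosed.inter ?_ ?_) ?_) ?_) ?_) ?_) ?_)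
      ?_) ?_) ?_
    all_goals exact isClosed_le (by fun_prop) (by fun_prop)
  have hcomp : IsCompact K :=
    ((isCompact_Icc.prod isCompact_Icc).prod (isCompact_Icc.prod isCompact_Icc)).of_isClosed_subset
      hclosed hsub
  have hne : K.Nonempty := ⟨((0, 0), (0, L)), H.adm_full le_rfl le_rfl (by simpa using ha)⟩
  obtain ⟨p, hp, hmin⟩ := hcomp.exists_isMinOn hne H.fun1_cont.continuousOn
  refine ⟨p.1.1, p.1.2, p.2.1, p.2.2, hp, ?_⟩
  intro c' d' α' β' h'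
  exact hmin (show ((c', d'), (α', β')) ∈ K from h')

/-- Inside an admissible interval there is a single well which is admissible. -/
lemma Profile.find_well (H : Profile L f h) {a c d α β : ℝ} (hA : Adm L f h a c d α β)
    (hρ : ∀ x ∈ Icc 0 L, a ^ 2 < f x ^ 2 + h x ^ 2) :
    ∃ α' β', α ≤ α' ∧ α' < β' ∧ β' ≤ β ∧ Adm L f h a c d α' β' ∧
      ∀ x ∈ Ioo α' β', poly f h c d x < 0 := by
  have hpc := H.poly_cont c d
  have hf := H.fc
  have hh := H.hc
  have hcd0 : 0 ≤ c + d := add_nonneg hA.hc hA.hd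
  set Sp : Set ℝ := Icc α β ∩ {x | 0 ≤ poly f h c d x} ∩ {x | h x ^ 2 ≤ d * (c + d)} with hSp
  have hcSp : IsCompact Sp :=
    (isCompact_Icc.inter_right (isClosed_le continuous_const hpc)).inter_right
      (isClosed_le (by fun_prop) continuous_const)
  have hβS : β ∈ Sp := ⟨⟨⟨hA.hαβ, le_rfl⟩, hA.pβ⟩, hA.hβ2⟩
  obtain ⟨β', hβ'S, hβ'min⟩ := hcSp.exists_isLeast ⟨β, hβS⟩
  set Sm : Set ℝ := Icc α β' ∩ {x | 0 ≤ poly f h c d x} ∩ {x | f x ^ 2 ≤ c * (c + d)} with hSm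
  have hcSm : IsCompact Sm :=
    (isCompact_Icc.inter_right (isClosed_le continuous_const hpc)).inter_right
      (isClosed_le (by fun_prop) continuous_const)
  have hαS : α ∈ Sm := ⟨⟨⟨le_rfl, hβ'S.1.1.1⟩, hA.pα⟩, hA.fα⟩
  obtain ⟨α', hα'S, hα'max⟩ := hcSm.exists_isGreatest ⟨α, hαS⟩
  have hin : ∀ x, x ∈ Icc α β → x ∈ Icc 0 L := fun x hx =>
    ⟨hA.hα.trans hx.1, hx.2.trans hA.hβ⟩
  have hβ'I : β' ∈ Icc α β := hβ'S.1.1
  have hα'I : α' ∈ Icc α β := ⟨hα'S.1.1.1, hα'S.1.1.2.trans hβ'I.2⟩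
  have hlt : α' < β' := by
    rcases eq_or_lt_of_le hα'S.1.1.2 with h1 | h1
    · exfalso
      have h2 : f β' ^ 2 ≤ c * (c + d) := by rw [← h1]; exact hα'S.2
      exact excl hcd0 hA.hcd (hρ _ (hin _ hβ'I)) ⟨h2, hβ'S.2⟩
    · exact h1
  refine ⟨α', β', hα'I.1, hlt, hβ'I.2, ⟨hA.hc, hA.hd, hA.hcd, hA.hα.trans hα'I.1, hlt.le,
    hβ'I.2.trans hA.hβ, hα'S.1.2, hβ'S.1.2, hα'S.2, hβ'S.2⟩, ?_⟩
  intro x hx
  by_contra hcon
  push Not at hcon
  have hxI : x ∈ Icc α β := ⟨hα'I.1.trans hx.1.le, hx.2.le.trans hβ'I.2⟩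
  rcases dich hA.hc hA.hd hcon with h1 | h1
  · have : x ∈ Sm := ⟨⟨⟨hxI.1, hx.2.le⟩, hcon⟩, h1⟩
    exact absurd (hα'max this) (not_le.2 hx.1)
  · have : x ∈ Sp := ⟨⟨hxI, hcon⟩, h1⟩
    exact absurd (hβ'min this) (not_le.2 hx.2)

end

end DWS
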