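import Pool.Agent.DWS.Defs
import Pool.Agent.SGR.Osc

/-!
# The closed geodesics used in the proof
-/

namespace DWS

open Set MeasureTheory Real Filter Topology

lemma geodesic_of {f h r θ φ v w p q p' q' : ℝ → ℝ}
    (hr : ContDiff ℝ (⊤ : ℕ∞) r) (hθ : ContDiff ℝ (⊤ : ℕ∞) θ) (hφ : ContDiff ℝ (⊤ : ℕ∞) φ)
    (h1 : ∀ t, HasDerivAt r (v t) t) (h2 : ∀ t, HasDerivAt v (w t) t)
    (h3 : ∀ t, HasDerivAt θ (p t) t) (h4 : ∀ t, HasDerivAt p (p' t) t)
    (h5 : ∀ t, HasDerivAt φ (q t) t) (h6 : ∀ t, HasDerivAt q (q' t) t)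
    (e1 : ∀ t, v t ^ 2 + f (r t) ^ 2 * p t ^ 2 + h (r t) ^ 2 * q t ^ 2 = 1)
    (e2 : ∀ t, w t = f (r t) * deriv f (r t) * p t ^ 2 + h (r t) * deriv h (r t) * q t ^ 2)
    (e3 : ∀ t, f (r t) * p' t + 2 * deriv f (r t) * v t * p t = 0)
    (e4 : ∀ t, h (r t) * q' t + 2 * deriv h (r t) * v t * q t = 0) :
    IsUnitGeodesic f h r θ φ := by
  have d1 : deriv r = v := funext fun t => (h1 t).deriv
  have d2 : deriv v = w := funext fun t => (h2 t).deriv
  have d3 : deriv θ = p := funext fun t => (h3 t).deriv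
  have d4 : deriv p = p' := funext fun t => (h4 t).deriv
  have d5 : deriv φ = q := funext fun t => (h5 t).deriv
  have d6 : deriv q = q' := funext fun t => (h6 t).deriv
  refine ⟨hr, hθ, hφ, ?_, ?_, ?_, ?_⟩
  · intro t; rw [d1, d3, d5]; exact e1 t
  · intro t; rw [d1, d2, d3, d5]; exact e2 t
  · intro t; rw [d3, d4, d1]; exact e3 t
  · intro t; rw [d5, d6, d1]; exact e4 t

lemma exp_add_two_pi (x y : ℝ) (h : x = y + 2 * π) :
    Complex.exp (x * Complex.I) = Complex.exp (y * Complex.I) := by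
  rw [h]
  push_cast
  rw [add_mul, Complex.exp_add, Complex.exp_two_pi_mul_I, mul_one]

/-- Meridians. -/
lemma geodesic_meridian (f h : ℝ → ℝ) :
    IsUnitGeodesic f h (fun t => t) (fun _ => 0) (fun _ => 0) := by
  refine geodesic_of (v := fun _ => 1) (w := fun _ => 0) (p := fun _ => 0) (q := fun _ => 0)
    (p' := fun _ => 0) (q' := fun _ => 0) contDiff_id contDiff_const contDiff_const
    (fun t => hasDerivAt_id t) (fun t => hasDerivAt_const t 1) (fun t => hasDerivAt_const t 0)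
    (fun t => hasDerivAt_const t 0) (fun t => hasDerivAt_const t 0) (fun t => hasDerivAt_const t 0)
    ?_ ?_ ?_ ?_ <;> intro t <;> simp

lemma meridian_closes {L : ℝ} (hL : 0 < L) :
    Closes L (fun t => t) (fun _ => 0) (fun _ => 0) (4 * L) := by
  refine ⟨by positivity, fun t => ?_⟩
  unfold spherePoint
  have : π * (t + 4 * L) / (2 * L) = π * t / (2 * L) + 2 * π := by field_simp; ring
  rw [this, cos_add_two_pi, sin_add_two_pi]

/-- Diagonal circles on a torus (or an axis) where `f² + h²` is critical. -/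
lemma geodesic_circle {f h : ℝ → ℝ} {x ρ : ℝ} (hρ : 0 < ρ) (hx : f x ^ 2 + h x ^ 2 = ρ ^ 2)
    (hd : f x * deriv f x + h x * deriv h x = 0) :
    IsUnitGeodesic f h (fun _ => x) (fun t => t / ρ) (fun t => t / ρ) := by
  have hdiv : ∀ t : ℝ, HasDerivAt (fun t : ℝ => t / ρ) (1 / ρ) t := fun t =>
    (hasDerivAt_id t).div_const ρ
  refine geodesic_of (v := fun _ => 0) (w := fun _ => 0) (p := fun _ => 1 / ρ)
    (q := fun _ => 1 / ρ) (p' := fun _ => 0) (q' := fun _ => 0) contDiff_const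
    (contDiff_id.div_const _) (contDiff_id.div_const _)
    (fun t => hasDerivAt_const t x) (fun t => hasDerivAt_const t 0) hdiv
    (fun t => hasDerivAt_const t _) hdiv (fun t => hasDerivAt_const t _) ?_ ?_ ?_ ?_ <;> intro t
  · have : f x ^ 2 * (1 / ρ) ^ 2 + h x ^ 2 * (1 / ρ) ^ 2 = (f x ^ 2 + h x ^ 2) / ρ ^ 2 := by ring
    rw [zero_pow two_ne_zero, zero_add, this, hx, div_self (by positivity)]
  · have : f x * deriv f x * (1 / ρ) ^ 2 + h x * deriv h x * (1 / ρ) ^ 2
        = (f x * deriv f x + h x * deriv h x) / ρ ^ 2 := by ring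
    rw [this, hd, zero_div]
  · simp
  · simp

lemma circle_closes {L x ρ : ℝ} (hρ : 0 < ρ) :
    Closes L (fun _ => x) (fun t => t / ρ) (fun t => t / ρ) (2 * π * ρ) := by
  have hπ := pi_pos
  refine ⟨by positivity, fun t => ?_⟩
  unfold spherePoint
  have : (t + 2 * π * ρ) / ρ = t / ρ + 2 * π := by field_simp
  rw [exp_add_two_pi _ _ this]

section osc

variable {f h U P Q : ℝ → ℝ} {α β : ℝ}

/-- The angle along the oscillating solution. -/
noncomputable def ang (hw : SGR.Well U α β) (P : ℝ → ℝ) (t : ℝ) : ℝ :=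
  ∫ s in (0 : ℝ)..t, P (hw.sol s)

lemma comp_cont (hw : SGR.Well U α β) (hP : ContinuousOn P (Icc α β)) :
    Continuous (fun t => P (hw.sol t)) :=
  hP.comp_continuous hw.sol_continuous (fun t => hw.sol_mem t)

lemma ang_hasDerivAt (hw : SGR.Well U α β) (hP : ContinuousOn P (Icc α β)) (t : ℝ) :
    HasDerivAt (ang hw P) (P (hw.sol t)) t :=
  ((comp_cont hw hP).integral_hasStrictDerivAt 0 t).hasDerivAt

lemma ang_contDiff (hw : SGR.Well U α β) (hP : ∀ x ∈ Icc α β, ContDiffAt ℝ (⊤ : ℕ∞) P x) :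
    ContDiff ℝ (⊤ : ℕ∞) (ang hw P) := by
  have hPc : ContinuousOn P (Icc α β) := fun x hx => (hP x hx).continuousAt.continuousWithinAt
  rw [contDiff_infty_iff_deriv]
  refine ⟨fun t => (ang_hasDerivAt hw hPc t).differentiableAt, ?_⟩
  have : deriv (ang hw P) = fun t => P (hw.sol t) := funext fun t => (ang_hasDerivAt hw hPc t).deriv
  rw [this, contDiff_iff_contDiffAt]
  intro t
  exact (hP _ (hw.sol_mem t)).comp t hw.sol_contDiff.contDiffAt

lemma ang_add (hw : SGR.Well U α β) (hP : ContinuousOn P (Icc α β)) (t : ℝ) :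
    ang hw P (t + SGR.per U α β) = ang hw P t + 2 * ∫ x in Ioo α β, P x / √(U x) := by
  have hc := comp_cont hw hP
  have hp : Function.Periodic (fun s => P (hw.sol s)) (SGR.per U α β) := by
    intro s; simp only [hw.sol_periodic]
  have h2 := hp.intervalIntegral_add_eq t 0
  rw [zero_add, hw.integral_period hP] at h2
  unfold ang
  rw [← intervalIntegral.integral_add_adjacent_intervals (hc.intervalIntegrable 0 t)
    (hc.intervalIntegrable t _), h2]

lemma osc_geodesic (hw : SGR.Well U α β)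
    (hP : ∀ x ∈ Icc α β, ContDiffAt ℝ (⊤ : ℕ∞) P x)
    (hQ : ∀ x ∈ Icc α β, ContDiffAt ℝ (⊤ : ℕ∞) Q x)
    (hU : ∀ x ∈ Icc α β, U x = 1 - f x ^ 2 * P x ^ 2 - h x ^ 2 * Q x ^ 2)
    (hU' : ∀ x ∈ Icc α β, deriv U x
      = 2 * (f x * deriv f x * P x ^ 2 + h x * deriv h x * Q x ^ 2))
    (hP' : ∀ x ∈ Icc α β, f x * deriv P x + 2 * deriv f x * P x = 0)
    (hQ' : ∀ x ∈ Icc α β, h x * deriv Q x + 2 * deriv h x * Q x = 0) :
    IsUnitGeodesic f h hw.sol (ang hw P) (ang hw Q) := by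
  have hPc : ContinuousOn P (Icc α β) := fun x hx => (hP x hx).continuousAt.continuousWithinAt
  have hQc : ContinuousOn Q (Icc α β) := fun x hx => (hQ x hx).continuousAt.continuousWithinAt
  refine geodesic_of (v := hw.vel) (w := fun t => deriv U (hw.sol t) / 2)
    (p := fun t => P (hw.sol t)) (q := fun t => Q (hw.sol t))
    (p' := fun t => deriv P (hw.sol t) * hw.vel t) (q' := fun t => deriv Q (hw.sol t) * hw.vel t)
    hw.sol_contDiff (ang_contDiff hw hP) (ang_contDiff hw hQ) hw.sol_hasDerivAt hw.vel_hasDerivAt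
    (ang_hasDerivAt hw hPc) ?_ (ang_hasDerivAt hw hQc) ?_ ?_ ?_ ?_ ?_ <;> intro t
  · exact ((hP _ (hw.sol_mem t)).differentiableAt (by simp)).hasDerivAt.comp t (hw.sol_hasDerivAt t)
  · exact ((hQ _ (hw.sol_mem t)).differentiableAt (by simp)).hasDerivAt.comp t (hw.sol_hasDerivAt t)
  · rw [hw.vel_sq, hU _ (hw.sol_mem t)]; ring
  · skip
    rw [hU' _ (hw.sol_mem t)]; ring
  · have := hP' _ (hw.sol_mem t)
    calc _ = (f (hw.sol t) * deriv P (hw.sol t) + 2 * deriv f (hw.sol t) * P (hw.sol t))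
          * hw.vel t := by ring
      _ = 0 := by rw [this, zero_mul]
  · have := hQ' _ (hw.sol_mem t)
    calc _ = (h (hw.sol t) * deriv Q (hw.sol t) + 2 * deriv h (hw.sol t) * Q (hw.sol t))
          * hw.vel t := by ring
      _ = 0 := by rw [this, zero_mul]

lemma per_eq (hw : SGR.Well U α β) : SGR.per U α β = 2 * ∫ x in Ioo α β, 1 / √(U x) := by
  have h1 := hw.integral_period (F := fun _ => (1 : ℝ)) continuousOn_const
  rw [intervalIntegral.integral_const, sub_zero, smul_eq_mul, mul_one] at h1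
  exact h1

/-- Closing after `n` oscillations. -/
lemma osc_closes_two {L : ℝ} (hw : SGR.Well U α β) (hPc : ContinuousOn P (Icc α β))
    (hQc : ContinuousOn Q (Icc α β))
    (hΘ : 2 * ∫ x in Ioo α β, P x / √(U x) = π) (hΦ : 2 * ∫ x in Ioo α β, Q x / √(U x) = π) :
    Closes L hw.sol (ang hw P) (ang hw Q) (2 * SGR.per U α β) := by
  have hp := hw.per_pos
  refine ⟨by positivity, fun t => ?_⟩
  have e : t + 2 * SGR.per U α β = (t + SGR.per U α β) + SGR.per U α β := by ring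
  unfold spherePoint
  rw [e, hw.sol_periodic, hw.sol_periodic]
  rw [exp_add_two_pi (ang hw P (t + SGR.per U α β + SGR.per U α β)) (ang hw P t)
    (by rw [ang_add hw hPc, ang_add hw hPc, hΘ]; ring)]
  rw [exp_add_two_pi (ang hw Q (t + SGR.per U α β + SGR.per U α β)) (ang hw Q t)
    (by rw [ang_add hw hQc, ang_add hw hQc, hΦ]; ring)]

lemma osc_closes_one {L : ℝ} (hw : SGR.Well U α β) (hPc : ContinuousOn P (Icc α β))
    (hQc : ContinuousOn Q (Icc α β))
    (hΘ : 2 * ∫ x in Ioo α β, P x / √(U x) = 0 ∨ 2 * ∫ x in Ioo α β, P x / √(U x) = 2 * π)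
    (hΦ : 2 * ∫ x in Ioo α β, Q x / √(U x) = 0 ∨ 2 * ∫ x in Ioo α β, Q x / √(U x) = 2 * π) :
    Closes L hw.sol (ang hw P) (ang hw Q) (SGR.per U α β) := by
  refine ⟨hw.per_pos, fun t => ?_⟩
  unfold spherePoint
  rw [hw.sol_periodic]
  have e1 : Complex.exp ((ang hw P (t + SGR.per U α β) : ℝ) * Complex.I)
      = Complex.exp ((ang hw P t : ℝ) * Complex.I) := by
    rcases hΘ with hΘ | hΘ
    · rw [ang_add hw hPc, hΘ, add_zero]
    · exact exp_add_two_pi _ _ (by rw [ang_add hw hPc, hΘ])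
  have e2 : Complex.exp ((ang hw Q (t + SGR.per U α β) : ℝ) * Complex.I)
      = Complex.exp ((ang hw Q t : ℝ) * Complex.I) := by
    rcases hΦ with hΦ | hΦ
    · rw [ang_add hw hQc, hΦ, add_zero]
    · exact exp_add_two_pi _ _ (by rw [ang_add hw hQc, hΦ])
  rw [e1, e2]

end osc

end DWS
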