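import Pool.Agent.DWS.Crit
import Pool.Agent.DWS.Geo

/-!
# The minimum gives a closed geodesic
-/

namespace DWS

open Set MeasureTheory Real Filter Topology

/-- Angular speed. -/
noncomputable def spd (f : ℝ → ℝ) (c x : ℝ) : ℝ := c / f x ^ 2

section
variable {f h : ℝ → ℝ} {c d x : ℝ}

lemma spd_zero (f : ℝ → ℝ) : spd f 0 = fun _ => 0 := by
  funext y; simp [spd]

lemma spd_hasDerivAt (hf : DifferentiableAt ℝ f x) (h0 : c = 0 ∨ f x ≠ 0) :
    HasDerivAt (spd f c) (-(2 * c * deriv f x / f x ^ 3)) x := by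
  rcases h0 with h0 | h0
  · subst h0
    rw [spd_zero]
    simpa using hasDerivAt_const x (0 : ℝ)
  · have := (hasDerivAt_const x c).div (hf.hasDerivAt.pow 2) (pow_ne_zero 2 h0)
    refine this.congr_deriv ?_
    simp only [Nat.cast_ofNat, Pi.pow_apply]
    field_simp
    ring

lemma spd_contDiffAt (hf : ContDiff ℝ (⊤ : ℕ∞) f) (h0 : c = 0 ∨ f x ≠ 0) :
    ContDiffAt ℝ (⊤ : ℕ∞) (spd f c) x := by
  rcases h0 with h0 | h0
  · subst h0
    rw [spd_zero]; exact contDiffAt_const
  · exact contDiffAt_const.div (hf.contDiffAt.pow 2) (pow_ne_zero 2 h0)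

lemma sq_term_hasDerivAt (hf : DifferentiableAt ℝ f x) (h0 : c = 0 ∨ f x ≠ 0) :
    HasDerivAt (fun y => c ^ 2 / f y ^ 2) (-(2 * c ^ 2 * deriv f x / f x ^ 3)) x := by
  rcases h0 with h0 | h0
  · subst h0
    have : (fun y => (0 : ℝ) ^ 2 / f y ^ 2) = fun _ => 0 := by funext y; simp
    rw [this]
    simpa using hasDerivAt_const x (0 : ℝ)
  · have := (hasDerivAt_const x (c ^ 2)).div (hf.hasDerivAt.pow 2) (pow_ne_zero 2 h0)
    refine this.congr_deriv ?_
    simp only [Nat.cast_ofNat, Pi.pow_apply]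
    field_simp
    ring

lemma pot_hasDerivAt (hf : DifferentiableAt ℝ f x) (hh : DifferentiableAt ℝ h x)
    (h0 : c = 0 ∨ f x ≠ 0) (h1 : d = 0 ∨ h x ≠ 0) :
    HasDerivAt (pot f h c d)
      (2 * c ^ 2 * deriv f x / f x ^ 3 + 2 * d ^ 2 * deriv h x / h x ^ 3) x := by
  have e1 := (sq_term_hasDerivAt hf h0).const_sub 1
  have e2 := e1.sub (sq_term_hasDerivAt hh h1)
  refine e2.congr_deriv ?_
  ring

lemma sq_term_eq (h0 : c = 0 ∨ f x ≠ 0) : f x ^ 2 * spd f c x ^ 2 = c ^ 2 / f x ^ 2 := by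
  unfold spd
  rcases h0 with h0 | h0
  · subst h0; simp
  · field_simp

lemma dterm_eq (h0 : c = 0 ∨ f x ≠ 0) :
    f x * deriv f x * spd f c x ^ 2 = c ^ 2 * deriv f x / f x ^ 3 := by
  unfold spd
  rcases h0 with h0 | h0
  · subst h0; simp
  · field_simp

lemma ang_eq_zero (hf : DifferentiableAt ℝ f x) (h0 : c = 0 ∨ f x ≠ 0) :
    f x * deriv (spd f c) x + 2 * deriv f x * spd f c x = 0 := by
  rw [(spd_hasDerivAt hf h0).deriv]
  unfold spd
  rcases h0 with h0 | h0
  · subst h0; simp
  · field_simp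
    ring

end

section
variable {L : ℝ} {f h : ℝ → ℝ}

/-- A well of the potential away from the relevant axes gives a geodesic. -/
lemma Profile.geodesic_well (H : Profile L f h) {c d A B : ℝ}
    (hw : SGR.Well (pot f h c d) A B) (h0 : ∀ x ∈ Icc A B, c = 0 ∨ f x ≠ 0)
    (h1 : ∀ x ∈ Icc A B, d = 0 ∨ h x ≠ 0) :
    IsUnitGeodesic f h hw.sol (ang hw (spd f c)) (ang hw (spd h d)) := by
  refine osc_geodesic hw (fun x hx => spd_contDiffAt H.smooth_f (h0 x hx))
    (fun x hx => spd_contDiffAt H.smooth_h (h1 x hx)) ?_ ?_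
    (fun x hx => ang_eq_zero (H.fdiff x) (h0 x hx)) (fun x hx => ang_eq_zero (H.hdiff x) (h1 x hx))
  · intro x hx
    rw [sq_term_eq (h0 x hx), sq_term_eq (h1 x hx)]
    rfl
  · intro x hx
    rw [(pot_hasDerivAt (H.fdiff x) (H.hdiff x) (h0 x hx) (h1 x hx)).deriv,
      dterm_eq (h0 x hx), dterm_eq (h1 x hx)]
    ring

lemma Profile.spd_cont_f (H : Profile L f h) {c A B : ℝ} (h0 : ∀ x ∈ Icc A B, c = 0 ∨ f x ≠ 0) :
    ContinuousOn (spd f c) (Icc A B) :=
  fun x hx => (spd_contDiffAt H.smooth_f (h0 x hx)).continuousAt.continuousWithinAt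

lemma Profile.spd_cont_h (H : Profile L f h) {d A B : ℝ} (h1 : ∀ x ∈ Icc A B, d = 0 ∨ h x ≠ 0) :
    ContinuousOn (spd h d) (Icc A B) :=
  fun x hx => (spd_contDiffAt H.smooth_h (h1 x hx)).continuousAt.continuousWithinAt

section
variable {a c d α β : ℝ}

/-- The consequences of the first order conditions for the integrals over `(α, β)`. -/
lemma Cr.integrals (m : Cr L f h a c d α β)
    (i1 : IntervalIntegrable (fun x => spd f c x / √(pot f h c d x)) volume α β)
    (i2 : IntervalIntegrable (fun x => spd h d x / √(pot f h c d x)) volume α β) :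
    (0 < c → ∫ x in α..β, spd f c x / √(pot f h c d x) = π / 2) ∧
    (0 < d → ∫ x in α..β, spd h d x / √(pot f h c d x) = π / 2) ∧
    ∫ x in α..β, 1 / √(pot f h c d x) = fun1 f h c d α β / 2 := by
  have e1 : (fun x => (2 * c * 1 / f x ^ 2 + 2 * d * 0 / h x ^ 2) / (2 * √(pot f h c d x)))
      = fun x => spd f c x / √(pot f h c d x) := by
    funext x
    have : 2 * c * 1 / f x ^ 2 + 2 * d * 0 / h x ^ 2 = 2 * (c / f x ^ 2) := by ring
    rw [this, mul_div_mul_left _ _ (two_ne_zero)]
    rfl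
  have e2 : (fun x => (2 * c * 0 / f x ^ 2 + 2 * d * 1 / h x ^ 2) / (2 * √(pot f h c d x)))
      = fun x => spd h d x / √(pot f h c d x) := by
    funext x
    have : 2 * c * 0 / f x ^ 2 + 2 * d * 1 / h x ^ 2 = 2 * (d / h x ^ 2) := by ring
    rw [this, mul_div_mul_left _ _ (two_ne_zero)]
    rfl
  have k1 : 0 < c → ∫ x in α..β, spd f c x / √(pot f h c d x) = π / 2 := by
    intro hc
    have := m.eq (v₁ := 1) (v₂ := 0) zero_le_one le_rfl le_rfl zero_le_one
      (fun h => absurd h hc.ne') (fun _ => rfl) (by rw [e1]; exact i1)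
    rw [e1] at this
    rw [this]; ring
  have k2 : 0 < d → ∫ x in α..β, spd h d x / √(pot f h c d x) = π / 2 := by
    intro hd
    have := m.eq (v₁ := 0) (v₂ := 1) le_rfl zero_le_one zero_le_one le_rfl
      (fun _ => rfl) (fun h => absurd h hd.ne') (by rw [e2]; exact i2)
    rw [e2] at this
    rw [this]; ring
  refine ⟨k1, k2, ?_⟩
  have c1 : c * ∫ x in α..β, spd f c x / √(pot f h c d x) = c * (π / 2) := by
    rcases eq_or_lt_of_le m.adm.hc with h0 | h0
    · rw [← h0, zero_mul, zero_mul]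
    · rw [k1 h0]
  have c2 : d * ∫ x in α..β, spd h d x / √(pot f h c d x) = d * (π / 2) := by
    rcases eq_or_lt_of_le m.adm.hd with h0 | h0
    · rw [← h0, zero_mul, zero_mul]
    · rw [k2 h0]
  have hsum : ∫ x in α..β, 1 / √(pot f h c d x)
      = act f h c d α β + (c * (∫ x in α..β, spd f c x / √(pot f h c d x))
        + d * ∫ x in α..β, spd h d x / √(pot f h c d x)) := by
    unfold act
    rw [← intervalIntegral.integral_const_mul, ← intervalIntegral.integral_const_mul,
      ← intervalIntegral.integral_add (i1.const_mul c) (i2.const_mul d),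
      ← intervalIntegral.integral_add (m.H.ii _ _ _ _) ((i1.const_mul c).add (i2.const_mul d))]
    rw [intervalIntegral.integral_of_le m.lt.le, intervalIntegral.integral_of_le m.lt.le,
      integral_Ioc_eq_integral_Ioo, integral_Ioc_eq_integral_Ioo]
    refine setIntegral_congr_fun measurableSet_Ioo ?_
    intro x hx
    have hp := m.potpos hx
    have hs := Real.sqrt_pos.2 hp
    have hsq : √(pot f h c d x) ^ 2 = pot f h c d x := Real.sq_sqrt hp.le
    simp only
    have e3 : √(pot f h c d x) + (c * (spd f c x / √(pot f h c d x))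
        + d * (spd h d x / √(pot f h c d x)))
        = (√(pot f h c d x) ^ 2 + c * spd f c x + d * spd h d x) / √(pot f h c d x) := by
      field_simp
      ring
    rw [e3, hsq]
    congr 1
    unfold pot spd
    ring
  rw [hsum, c1, c2]
  unfold fun1
  ring

/-- The geodesic, both momenta positive. -/
lemma Cr.closed_regular (m : Cr L f h a c d α β) (hc : 0 < c) (hd : 0 < d) :
    ∃ (r θ φ : ℝ → ℝ) (T : ℝ), IsUnitGeodesic f h r θ φ ∧ Closes L r θ φ T ∧
      T = 2 * fun1 f h c d α β := by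
  have hα := m.α_pos hc
  have hβ := m.β_lt hd
  have h0 : ∀ x ∈ Icc α β, c = 0 ∨ f x ≠ 0 := fun x hx =>
    Or.inr (m.H.f_pos x (hα.trans_le hx.1) (hx.2.trans hβ.le)).ne'
  have h1 : ∀ x ∈ Icc α β, d = 0 ∨ h x ≠ 0 := fun x hx =>
    Or.inr (m.H.h_pos x (hα.le.trans hx.1) (hx.2.trans_lt hβ)).ne'
  have hw : SGR.Well (pot f h c d) α β :=
    ⟨m.lt, fun x hx => m.pot_contDiffAt hx, m.potα hc, m.potβ hd, fun x hx => m.potpos hx,
      m.dleft hc, m.dright hd⟩
  have cP := m.H.spd_cont_f h0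
  have cQ := m.H.spd_cont_h h1
  have toII : ∀ g : ℝ → ℝ, IntegrableOn g (Ioo α β) → IntervalIntegrable g volume α β := by
    intro g hg
    rw [intervalIntegrable_iff_integrableOn_Ioo_of_le m.lt.le]
    exact hg
  obtain ⟨k1, k2, k3⟩ := m.integrals (toII _ (hw.integrableOn cP)) (toII _ (hw.integrableOn cQ))
  have conv : ∀ g : ℝ → ℝ, ∫ x in Ioo α β, g x = ∫ x in α..β, g x := by
    intro g
    rw [intervalIntegral.integral_of_le m.lt.le, integral_Ioc_eq_integral_Ioo]
  refine ⟨hw.sol, ang hw (spd f c), ang hw (spd h d), 2 * SGR.per (pot f h c d) α β,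
    m.H.geodesic_well hw h0 h1, ?_, ?_⟩
  · refine osc_closes_two hw cP cQ ?_ ?_
    · rw [conv, k1 hc]; ring
    · rw [conv, k2 hd]; ring
  · rw [per_eq hw, conv, k3]; ring

/-- Integral of an even function. -/
lemma integral_even {g : ℝ → ℝ} {b : ℝ} (hg : ∀ x, g (-x) = g x) (hb : 0 ≤ b)
    (hi : IntervalIntegrable g volume (-b) b) :
    ∫ x in (-b)..b, g x = 2 * ∫ x in (0 : ℝ)..b, g x := by
  have i1 : IntervalIntegrable g volume (-b) 0 :=
    hi.mono_set (by rw [uIcc_of_le (by linarith), uIcc_of_le (by linarith)]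
                    exact Icc_subset_Icc le_rfl hb)
  have i2 : IntervalIntegrable g volume 0 b :=
    hi.mono_set (by rw [uIcc_of_le hb, uIcc_of_le (by linarith)]
                    exact Icc_subset_Icc (by linarith) le_rfl)
  rw [← intervalIntegral.integral_add_adjacent_intervals i1 i2]
  have h2 := intervalIntegral.integral_comp_neg (a := 0) (b := b) g
  rw [neg_zero] at h2
  rw [← h2]
  have : (fun x => g (-x)) = g := funext hg
  rw [this]
  ring

/-- The geodesic through the axis `r = 0`. -/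
lemma Cr.closed_left (m : Cr L f h a c d α β) (hc : c = 0) (hd : 0 < d) :
    ∃ (r θ φ : ℝ → ℝ) (T : ℝ), IsUnitGeodesic f h r θ φ ∧ Closes L r θ φ T ∧
      T = 2 * fun1 f h c d α β := by
  have hα := m.α_zero hc
  have hβ := m.β_lt hd
  have hβ0 : 0 < β := by have := m.lt; rwa [hα] at this
  subst hc
  have hev : ∀ x, pot f h 0 d (-x) = pot f h 0 d x := by
    intro x; unfold pot; rw [m.H.h_even]; simp
  have hhpos : ∀ x ∈ Icc (-β) β, 0 < h x := by
    intro x hx
    rcases le_or_gt 0 x with h1 | h1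
    · exact m.H.h_pos x h1 (hx.2.trans_lt hβ)
    · rw [← m.H.h_even]
      exact m.H.h_pos (-x) (by linarith) (by linarith [hx.1])
  have h0 : ∀ x ∈ Icc (-β) β, (0 : ℝ) = 0 ∨ f x ≠ 0 := fun _ _ => Or.inl rfl
  have h1 : ∀ x ∈ Icc (-β) β, d = 0 ∨ h x ≠ 0 := fun x hx => Or.inr (hhpos x hx).ne'
  have hpos : ∀ x ∈ Ioo (-β) β, 0 < pot f h 0 d x := by
    intro x hx
    rcases lt_trichotomy 0 x with h2 | h2 | h2
    · exact m.potpos ⟨by rw [hα]; exact h2, hx.2⟩
    · rw [← h2]
      unfold pot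
      have h3 := m.H.h_pos 0 le_rfl m.H.L_pos
      have h4 := m.rho 0 ⟨le_rfl, m.H.L_pos.le⟩
      rw [m.H.f_zero] at h4
      have h5 : d < a := by have := m.cd_lt; linarith
      have h6 : d ^ 2 < h 0 ^ 2 := by nlinarith
      have h7 : d ^ 2 / h 0 ^ 2 < 1 := by rwa [div_lt_one (by positivity)]
      simp only [ne_eq, OfNat.ofNat_ne_zero, not_false_eq_true, zero_pow, zero_div, sub_zero]
      linarith
    · rw [← hev]
      exact m.potpos ⟨by rw [hα]; linarith, by linarith [hx.1]⟩
  have hw : SGR.Well (pot f h 0 d) (-β) β := by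
    refine ⟨by linarith, fun x hx => m.H.pot_contDiffAt (h0 x hx) (h1 x hx), ?_, m.potβ hd, hpos,
      ?_, m.dright hd⟩
    · rw [hev]; exact m.potβ hd
    · have e1 : (fun x => pot f h 0 d (-x)) = pot f h 0 d := funext hev
      have e2 := deriv_comp_neg (pot f h 0 d) (-β)
      rw [e1, neg_neg] at e2
      rw [e2]
      linarith [m.dright hd]
  have cP := m.H.spd_cont_f h0
  have cQ := m.H.spd_cont_h h1
  have cO : ContinuousOn (fun _ : ℝ => (1 : ℝ)) (Icc (-β) β) := continuousOn_const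
  have hle : -β ≤ β := by linarith
  have toII : ∀ g : ℝ → ℝ, IntegrableOn g (Ioo (-β) β) → IntervalIntegrable g volume (-β) β := by
    intro g hg
    rw [intervalIntegrable_iff_integrableOn_Ioo_of_le hle]
    exact hg
  have toII' : ∀ g : ℝ → ℝ, IntegrableOn g (Ioo (-β) β) → IntervalIntegrable g volume α β := by
    intro g hg
    rw [intervalIntegrable_iff_integrableOn_Ioo_of_le m.lt.le]
    exact hg.mono_set (Ioo_subset_Ioo (by rw [hα]; linarith) le_rfl)
  obtain ⟨k1, k2, k3⟩ := m.integrals (toII' _ (hw.integrableOn cP)) (toII' _ (hw.integrableOn cQ))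
  have conv : ∀ g : ℝ → ℝ, ∫ x in Ioo (-β) β, g x = ∫ x in (-β)..β, g x := by
    intro g
    rw [intervalIntegral.integral_of_le hle, integral_Ioc_eq_integral_Ioo]
  have hspev : ∀ x, spd h d (-x) = spd h d x := by
    intro x; unfold spd; rw [m.H.h_even]
  refine ⟨hw.sol, ang hw (spd f 0), ang hw (spd h d), SGR.per (pot f h 0 d) (-β) β,
    m.H.geodesic_well hw h0 h1, ?_, ?_⟩
  · refine osc_closes_one hw cP cQ (Or.inl ?_) (Or.inr ?_)
    · rw [spd_zero]; simp
    · rw [conv, integral_even (fun x => by rw [hev, hspev]) hβ0.le (toII _ (hw.integrableOn cQ))]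
      have := k2 hd
      rw [hα] at this
      rw [this]; ring
  · rw [per_eq hw, conv, integral_even (fun x => by rw [hev]) hβ0.le (toII _ (hw.integrableOn cO))]
    rw [hα] at k3
    rw [k3, hα]; ring

/-- Integral of a function symmetric about `L`. -/
lemma integral_sym {g : ℝ → ℝ} {L b : ℝ} (hg : ∀ x, g (2 * L - x) = g x) (hb : b ≤ L)
    (hi : IntervalIntegrable g volume b (2 * L - b)) :
    ∫ x in b..(2 * L - b), g x = 2 * ∫ x in b..L, g x := by
  have i1 : IntervalIntegrable g volume b L :=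
    hi.mono_set (by rw [uIcc_of_le hb, uIcc_of_le (by linarith)]
                    exact Icc_subset_Icc le_rfl (by linarith))
  have i2 : IntervalIntegrable g volume L (2 * L - b) :=
    hi.mono_set (by rw [uIcc_of_le (by linarith), uIcc_of_le (by linarith)]
                    exact Icc_subset_Icc hb le_rfl)
  rw [← intervalIntegral.integral_add_adjacent_intervals i1 i2]
  have h2 := intervalIntegral.integral_comp_sub_left (a := b) (b := L) g (2 * L)
  rw [show 2 * L - L = L by ring] at h2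
  rw [← h2]
  have : (fun x => g (2 * L - x)) = g := funext hg
  rw [this]
  ring

/-- The geodesic through the axis `r = L`. -/
lemma Cr.closed_right (m : Cr L f h a c d α β) (hc : 0 < c) (hd : d = 0) :
    ∃ (r θ φ : ℝ → ℝ) (T : ℝ), IsUnitGeodesic f h r θ φ ∧ Closes L r θ φ T ∧
      T = 2 * fun1 f h c d α β := by
  have hβ := m.β_L hd
  have hα := m.α_pos hc
  have hαL : α < L := by have := m.lt; rwa [hβ] at this
  subst hd
  have hev : ∀ x, pot f h c 0 (2 * L - x) = pot f h c 0 x := by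
    intro x; unfold pot; rw [m.H.f_even]; simp
  have hfpos : ∀ x ∈ Icc α (2 * L - α), 0 < f x := by
    intro x hx
    rcases le_or_gt x L with h1 | h1
    · exact m.H.f_pos x (hα.trans_le hx.1) h1
    · rw [← m.H.f_even]
      exact m.H.f_pos (2 * L - x) (by linarith [hx.2]) (by linarith)
  have h0 : ∀ x ∈ Icc α (2 * L - α), c = 0 ∨ f x ≠ 0 := fun x hx => Or.inr (hfpos x hx).ne'
  have h1 : ∀ x ∈ Icc α (2 * L - α), (0 : ℝ) = 0 ∨ h x ≠ 0 := fun _ _ => Or.inl rfl
  have hpos : ∀ x ∈ Ioo α (2 * L - α), 0 < pot f h c 0 x := by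
    intro x hx
    rcases lt_trichotomy x L with h2 | h2 | h2
    · exact m.potpos ⟨hx.1, by rw [hβ]; exact h2⟩
    · rw [h2]
      unfold pot
      have h3 := m.H.f_pos L m.H.L_pos le_rfl
      have h4 := m.rho L ⟨m.H.L_pos.le, le_rfl⟩
      rw [m.H.h_L] at h4
      have h5 : c < a := by have := m.cd_lt; linarith
      have h6 : c ^ 2 < f L ^ 2 := by nlinarith
      have h7 : c ^ 2 / f L ^ 2 < 1 := by rwa [div_lt_one (by positivity)]
      simp only [ne_eq, OfNat.ofNat_ne_zero, not_false_eq_true, zero_pow, zero_div, sub_zero]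
      linarith
    · rw [← hev]
      exact m.potpos ⟨by linarith [hx.2], by rw [hβ]; linarith⟩
  have hw : SGR.Well (pot f h c 0) α (2 * L - α) := by
    refine ⟨by linarith, fun x hx => m.H.pot_contDiffAt (h0 x hx) (h1 x hx), m.potα hc, ?_, hpos,
      m.dleft hc, ?_⟩
    · rw [hev]; exact m.potα hc
    · have e1 : (fun x => pot f h c 0 (2 * L - x)) = pot f h c 0 := funext hev
      have e2 := deriv_comp_const_sub (f := pot f h c 0) (2 * L) (2 * L - α)
      rw [e1, show 2 * L - (2 * L - α) = α by ring] at e2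
      rw [e2]
      linarith [m.dleft hc]
  have cP := m.H.spd_cont_f h0
  have cQ := m.H.spd_cont_h h1
  have cO : ContinuousOn (fun _ : ℝ => (1 : ℝ)) (Icc α (2 * L - α)) := continuousOn_const
  have hle : α ≤ 2 * L - α := by linarith
  have toII : ∀ g : ℝ → ℝ, IntegrableOn g (Ioo α (2 * L - α)) →
      IntervalIntegrable g volume α (2 * L - α) := by
    intro g hg
    rw [intervalIntegrable_iff_integrableOn_Ioo_of_le hle]
    exact hg
  have toII' : ∀ g : ℝ → ℝ, IntegrableOn g (Ioo α (2 * L - α)) →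
      IntervalIntegrable g volume α β := by
    intro g hg
    rw [intervalIntegrable_iff_integrableOn_Ioo_of_le m.lt.le]
    exact hg.mono_set (Ioo_subset_Ioo le_rfl (by rw [hβ]; linarith))
  obtain ⟨k1, k2, k3⟩ := m.integrals (toII' _ (hw.integrableOn cP)) (toII' _ (hw.integrableOn cQ))
  have conv : ∀ g : ℝ → ℝ, ∫ x in Ioo α (2 * L - α), g x = ∫ x in α..(2 * L - α), g x := by
    intro g
    rw [intervalIntegral.integral_of_le hle, integral_Ioc_eq_integral_Ioo]
  have hspev : ∀ x, spd f c (2 * L - x) = spd f c x := by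
    intro x; unfold spd; rw [m.H.f_even]
  refine ⟨hw.sol, ang hw (spd f c), ang hw (spd h 0), SGR.per (pot f h c 0) α (2 * L - α),
    m.H.geodesic_well hw h0 h1, ?_, ?_⟩
  · refine osc_closes_one hw cP cQ (Or.inr ?_) (Or.inl ?_)
    · rw [conv, integral_sym (fun x => by rw [hev, hspev]) hαL.le (toII _ (hw.integrableOn cP))]
      have := k1 hc
      rw [hβ] at this
      rw [this]; ring
    · rw [spd_zero]; simp
  · rw [per_eq hw, conv, integral_sym (fun x => by rw [hev]) hαL.le (toII _ (hw.integrableOn cO))]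
    rw [hβ] at k3
    rw [k3, hβ]; ring

/-- All cases together. -/
lemma Cr.closed (m : Cr L f h a c d α β) :
    ∃ (r θ φ : ℝ → ℝ) (T : ℝ), IsUnitGeodesic f h r θ φ ∧ Closes L r θ φ T ∧
      T = 2 * fun1 f h c d α β := by
  rcases eq_or_lt_of_le m.adm.hc with h1 | h1
  · rcases eq_or_lt_of_le m.adm.hd with h2 | h2
    · exfalso
      have := m.cd_pos
      rw [← h1, ← h2, add_zero] at this
      exact lt_irrefl _ this
    · exact m.closed_left h1.symm h2
  · rcases eq_or_lt_of_le m.adm.hd with h2 | h2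
    · exact m.closed_right h1 h2.symm
    · exact m.closed_regular h1 h2

end

end

end DWS
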