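import Pool.Agent.DWS.Basic

/-!
# First order conditions at the minimum
-/

namespace DWS

open Set MeasureTheory Real Filter Topology

lemma int_le_of_sub {g : ℝ → ℝ} {α β κ : ℝ} (hab : α < β) (hg : IntervalIntegrable g volume α β)
    (hb : ∀ p q, α < p → p ≤ q → q < β → ∫ x in p..q, g x ≤ κ) : ∫ x in α..β, g x ≤ κ := by
  set m := (α + β) / 2 with hm
  have hm1 : α < m := by rw [hm]; linarith
  have hm2 : m < β := by rw [hm]; linarith
  have hmem : m ∈ uIcc α β := by rw [uIcc_of_le hab.le]; exact ⟨hm1.le, hm2.le⟩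
  have hΦ := intervalIntegral.continuousOn_primitive_interval' hg hmem
  rw [uIcc_of_le hab.le] at hΦ
  set Φ : ℝ → ℝ := fun b => ∫ x in m..b, g x with hΦdef
  have hii : ∀ x y, x ∈ Icc α β → y ∈ Icc α β → IntervalIntegrable g volume x y := by
    intro x y hx hy
    refine hg.mono_set ?_
    rw [uIcc_of_le hab.le]
    exact uIcc_subset_Icc hx hy
  have hsub : ∀ p q, p ∈ Icc α β → q ∈ Icc α β → ∫ x in p..q, g x = Φ q - Φ p := by
    intro p q hp hq
    have := intervalIntegral.integral_interval_sub_left (hii m q ⟨hm1.le, hm2.le⟩ hq)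
      (hii m p ⟨hm1.le, hm2.le⟩ hp)
    exact this.symm
  have h1 : ∀ p, α < p → p < m → Φ β - Φ p ≤ κ := by
    intro p hp1 hp2
    have ht : Tendsto Φ (𝓝[Ioo m β] β) (𝓝 (Φ β)) :=
      (hΦ β ⟨hab.le, le_rfl⟩).mono_left (nhdsWithin_mono β (fun x hx => ⟨hm1.le.trans hx.1.le, hx.2.le⟩))
    have : (𝓝[Ioo m β] β).NeBot := right_nhdsWithin_Ioo_neBot hm2
    refine le_of_tendsto (ht.sub_const (Φ p)) ?_
    filter_upwards [self_mem_nhdsWithin] with q hq
    rw [← hsub p q ⟨hp1.le, by linarith⟩ ⟨by linarith [hq.1], hq.2.le⟩]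
    exact hb p q hp1 (by linarith [hq.1]) hq.2
  rw [hsub α β ⟨le_rfl, hab.le⟩ ⟨hab.le, le_rfl⟩]
  have ht : Tendsto Φ (𝓝[Ioo α m] α) (𝓝 (Φ α)) :=
    (hΦ α ⟨le_rfl, hab.le⟩).mono_left (nhdsWithin_mono α (fun x hx => ⟨hx.1.le, by linarith [hx.2]⟩))
  have : (𝓝[Ioo α m] α).NeBot := left_nhdsWithin_Ioo_neBot hm1
  refine le_of_tendsto (ht.const_sub (Φ β)) ?_
  filter_upwards [self_mem_nhdsWithin] with p hp
  exact h1 p hp.1 hp.2

section
variable {L : ℝ} {f h : ℝ → ℝ}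

lemma Profile.pot_contDiffAt (H : Profile L f h) {c d x : ℝ} (hf : c = 0 ∨ f x ≠ 0)
    (hh : d = 0 ∨ h x ≠ 0) : ContDiffAt ℝ (⊤ : ℕ∞) (pot f h c d) x := by
  unfold pot
  refine ContDiffAt.sub (ContDiffAt.sub contDiffAt_const ?_) ?_
  · rcases hf with hf | hf
    · subst hf
      have : (fun y => (0 : ℝ) ^ 2 / f y ^ 2) = fun _ => 0 := by funext y; simp
      rw [this]; exact contDiffAt_const
    · exact contDiffAt_const.div (H.smooth_f.contDiffAt.pow 2) (pow_ne_zero 2 hf)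
  · rcases hh with hh | hh
    · subst hh
      have : (fun y => (0 : ℝ) ^ 2 / h y ^ 2) = fun _ => 0 := by funext y; simp
      rw [this]; exact contDiffAt_const
    · exact contDiffAt_const.div (H.smooth_h.contDiffAt.pow 2) (pow_ne_zero 2 hh)

/-- Moving a transversal end while the momenta decrease. -/
lemma Profile.end_move (H : Profile L f h) {c d e σ : ℝ} (hσ : σ = 1 ∨ σ = -1)
    (hc : 0 ≤ c) (hd : 0 ≤ d) (he : e ∈ Ioo 0 L) (hU : pot f h c d e = 0)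
    (hder : σ * deriv (pot f h c d) e < 0) :
    ∃ C > 0, ∃ K ≥ 0, ∃ ε₀ > 0, ∀ ε ∈ Ioo 0 ε₀, e + σ * (C * ε) ∈ Ioo 0 L ∧
      ∀ c' d', 0 ≤ c' → 0 ≤ d' → c - ε ≤ c' → c' ≤ c → d - ε ≤ d' → d' ≤ d →
        pot f h c' d' (e + σ * (C * ε)) ≤ 0 ∧
        ∀ s ∈ Ioo 0 (C * ε), pot f h c' d' (e + σ * s) ≤ K * ε := by
  have hσ2 : σ * σ = 1 := by rcases hσ with h1 | h1 <;> rw [h1] <;> norm_num
  have hσabs : |σ| = 1 := by rcases hσ with h1 | h1 <;> rw [h1] <;> norm_num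
  have hfe := H.f_pos e he.1 he.2.le
  have hhe := H.h_pos e he.1.le he.2
  set k := -(σ * deriv (pot f h c d) e) / 2 with hk
  have hkpos : 0 < k := by rw [hk]; linarith
  -- the potential beyond the end
  have hdiff : HasDerivAt (pot f h c d) (deriv (pot f h c d) e) e :=
    ((H.pot_contDiffAt (Or.inr hfe.ne') (Or.inr hhe.ne')).differentiableAt (by simp)).hasDerivAt
  have hsl : ∀ᶠ y in 𝓝 e, |pot f h c d y - (y - e) * deriv (pot f h c d) e| ≤ k * |y - e| := by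
    have := hdiff.isLittleO.def hkpos
    filter_upwards [this] with y hy
    rw [hU, sub_zero, smul_eq_mul, Real.norm_eq_abs, Real.norm_eq_abs] at hy
    exact hy
  -- lower bounds for f and h
  have hfl : ∀ᶠ y in 𝓝 e, f e / 2 < f y := H.fc.continuousAt.eventually (lt_mem_nhds (by linarith))
  have hhl : ∀ᶠ y in 𝓝 e, h e / 2 < h y := H.hc.continuousAt.eventually (lt_mem_nhds (by linarith))
  have hin : ∀ᶠ y in 𝓝 e, y ∈ Ioo 0 L := isOpen_Ioo.mem_nhds he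
  obtain ⟨δ, hδ, hball⟩ := Metric.eventually_nhds_iff.1 (((hsl.and hfl).and hhl).and hin)
  set M := 2 * c / (f e / 2) ^ 2 + 2 * d / (h e / 2) ^ 2 with hM
  have hM0 : 0 ≤ M := by positivity
  set C := M / k + 1 with hC
  have hCpos : 0 < C := by positivity
  refine ⟨C, hCpos, M, hM0, δ / C, by positivity, ?_⟩
  intro ε hε
  have hε0 : 0 < ε := hε.1
  have hCε : C * ε < δ := by
    have := hε.2
    rw [lt_div_iff₀ hCpos] at this
    linarith
  have hkey : ∀ s, 0 ≤ s → s ≤ C * ε → dist (e + σ * s) e < δ := by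
    intro s hs0 hs
    rw [Real.dist_eq, add_sub_cancel_left, abs_mul, hσabs, one_mul, abs_of_nonneg hs0]
    linarith
  have hpot : ∀ s, 0 ≤ s → s ≤ C * ε → pot f h c d (e + σ * s) ≤ -(k * s) := by
    intro s hs0 hs
    have h1 := (hball (hkey s hs0 hs)).1.1.1
    rw [add_sub_cancel_left, abs_mul, hσabs, one_mul, abs_of_nonneg hs0] at h1
    have h2 := (abs_le.1 h1).2
    have h3 : σ * s * deriv (pot f h c d) e = -(2 * k * s) := by rw [hk]; ring
    rw [h3] at h2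
    linarith
  refine ⟨(hball (hkey _ (by positivity) le_rfl)).2, ?_⟩
  intro c' d' hc'0 hd'0 hc1 hc2 hd1 hd2
  have hgen : ∀ s, 0 ≤ s → s ≤ C * ε →
      pot f h c' d' (e + σ * s) ≤ pot f h c d (e + σ * s) + M * ε := by
    intro s hs0 hs
    have hb := hball (hkey s hs0 hs)
    have h1 := hb.1.1.2
    have h2 := hb.1.2
    set y := e + σ * s with hy
    have h3 : (f e / 2) ^ 2 ≤ f y ^ 2 := pow_le_pow_left₀ (by positivity) h1.le 2
    have h4 : (h e / 2) ^ 2 ≤ h y ^ 2 := pow_le_pow_left₀ (by positivity) h2.le 2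
    have h5 : c ^ 2 - c' ^ 2 ≤ 2 * c * ε := by nlinarith
    have h6 : d ^ 2 - d' ^ 2 ≤ 2 * d * ε := by nlinarith
    have h7 : (c ^ 2 - c' ^ 2) / f y ^ 2 ≤ 2 * c * ε / (f e / 2) ^ 2 := by
      calc (c ^ 2 - c' ^ 2) / f y ^ 2 ≤ 2 * c * ε / f y ^ 2 :=
            div_le_div_of_nonneg_right h5 (by positivity)
        _ ≤ _ := div_le_div_of_nonneg_left (by positivity) (by positivity) h3
    have h8 : (d ^ 2 - d' ^ 2) / h y ^ 2 ≤ 2 * d * ε / (h e / 2) ^ 2 := by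
      calc (d ^ 2 - d' ^ 2) / h y ^ 2 ≤ 2 * d * ε / h y ^ 2 :=
            div_le_div_of_nonneg_right h6 (by positivity)
        _ ≤ _ := div_le_div_of_nonneg_left (by positivity) (by positivity) h4
    have h9 : M * ε = 2 * c * ε / (f e / 2) ^ 2 + 2 * d * ε / (h e / 2) ^ 2 := by rw [hM]; ring
    rw [h9]
    unfold pot
    rw [sub_div] at h7 h8
    linarith
  constructor
  · have h1 := hgen (C * ε) (by positivity) le_rfl
    have h2 := hpot (C * ε) (by positivity) le_rfl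
    have h3 : k * (C * ε) = M * ε + k * ε := by rw [hC]; field_simp
    have : 0 < k * ε := by positivity
    linarith
  · intro s hs
    have h1 := hgen s hs.1.le hs.2.le
    have h2 := hpot s hs.1.le hs.2.le
    have : 0 < k * s := mul_pos hkpos hs.1
    linarith

/-- The data of a minimum in a single well, below the level `π a`. -/
structure Cr (L : ℝ) (f h : ℝ → ℝ) (a c d α β : ℝ) : Prop where
  H : Profile L f h
  adm : Adm L f h a c d α β
  isMin : ∀ c' d' α' β', Adm L f h a c' d' α' β' → fun1 f h c d α β ≤ fun1 f h c' d' α' β'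
  lt : α < β
  inside : ∀ x ∈ Ioo α β, poly f h c d x < 0
  cd_pos : 0 < c + d
  cd_lt : c + d < a
  rho : ∀ x ∈ Icc 0 L, a ^ 2 < f x ^ 2 + h x ^ 2

section
variable {a c d α β : ℝ}

lemma Cr.fpos (m : Cr L f h a c d α β) {x : ℝ} (hx : x ∈ Ioo α β) : 0 < f x :=
  m.H.f_pos x (m.adm.hα.trans_lt hx.1) (hx.2.le.trans m.adm.hβ)

lemma Cr.hpos (m : Cr L f h a c d α β) {x : ℝ} (hx : x ∈ Ioo α β) : 0 < h x :=
  m.H.h_pos x (m.adm.hα.trans hx.1.le) (hx.2.trans_le m.adm.hβ)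

lemma Cr.potpos (m : Cr L f h a c d α β) {x : ℝ} (hx : x ∈ Ioo α β) : 0 < pot f h c d x :=
  (pot_pos_iff (m.fpos hx).ne' (m.hpos hx).ne').2 (m.inside x hx)

lemma Cr.polyα (m : Cr L f h a c d α β) : poly f h c d α = 0 := by
  refine le_antisymm ?_ m.adm.pα
  have ht : Tendsto (poly f h c d) (𝓝[Ioo α β] α) (𝓝 (poly f h c d α)) :=
    (m.H.poly_cont c d).continuousAt.mono_left nhdsWithin_le_nhds
  have : (𝓝[Ioo α β] α).NeBot := left_nhdsWithin_Ioo_neBot m.lt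
  refine le_of_tendsto ht ?_
  filter_upwards [self_mem_nhdsWithin] with x hx
  exact (m.inside x hx).le

lemma Cr.polyβ (m : Cr L f h a c d α β) : poly f h c d β = 0 := by
  refine le_antisymm ?_ m.adm.pβ
  have ht : Tendsto (poly f h c d) (𝓝[Ioo α β] β) (𝓝 (poly f h c d β)) :=
    (m.H.poly_cont c d).continuousAt.mono_left nhdsWithin_le_nhds
  have : (𝓝[Ioo α β] β).NeBot := right_nhdsWithin_Ioo_neBot m.lt
  refine le_of_tendsto ht ?_
  filter_upwards [self_mem_nhdsWithin] with x hx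
  exact (m.inside x hx).le

lemma Cr.α_pos (m : Cr L f h a c d α β) (hc : 0 < c) : 0 < α := by
  rcases eq_or_lt_of_le m.adm.hα with h1 | h1
  · exfalso
    have h2 := m.polyα
    rw [← h1] at h2
    unfold poly at h2
    rw [m.H.f_zero] at h2
    have h3 := m.H.h_pos 0 le_rfl m.H.L_pos
    have : 0 < c ^ 2 * h 0 ^ 2 := by positivity
    nlinarith
  · exact h1

lemma Cr.β_lt (m : Cr L f h a c d α β) (hd : 0 < d) : β < L := by
  rcases eq_or_lt_of_le m.adm.hβ with h1 | h1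
  · exfalso
    have h2 := m.polyβ
    rw [h1] at h2
    unfold poly at h2
    rw [m.H.h_L] at h2
    have h3 := m.H.f_pos L m.H.L_pos le_rfl
    have : 0 < d ^ 2 * f L ^ 2 := by positivity
    nlinarith
  · exact h1

lemma Cr.α_zero (m : Cr L f h a c d α β) (hc : c = 0) : α = 0 := by
  have h1 := m.adm.fα
  rw [hc, zero_mul] at h1
  rcases eq_or_lt_of_le m.adm.hα with h2 | h2
  · exact h2.symm
  · have := m.H.f_pos α h2 (m.lt.le.trans m.adm.hβ)
    nlinarith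

lemma Cr.β_L (m : Cr L f h a c d α β) (hd : d = 0) : β = L := by
  have h1 := m.adm.hβ2
  rw [hd, zero_mul] at h1
  rcases eq_or_lt_of_le m.adm.hβ with h2 | h2
  · exact h2
  · have := m.H.h_pos β (m.adm.hα.trans m.lt.le) h2
    nlinarith

lemma Cr.potα (m : Cr L f h a c d α β) (hc : 0 < c) : pot f h c d α = 0 := by
  have h1 := m.α_pos hc
  have h2 : α < L := m.lt.trans_le m.adm.hβ
  exact (pot_zero_iff (m.H.f_pos α h1 h2.le).ne' (m.H.h_pos α h1.le h2).ne').2 m.polyα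

lemma Cr.potβ (m : Cr L f h a c d α β) (hd : 0 < d) : pot f h c d β = 0 := by
  have h1 : 0 < β := m.adm.hα.trans_lt m.lt
  have h2 := m.β_lt hd
  exact (pot_zero_iff (m.H.f_pos β h1 h2.le).ne' (m.H.h_pos β h1.le h2).ne').2 m.polyβ

lemma Cr.pot_contDiffAt (m : Cr L f h a c d α β) {x : ℝ} (hx : x ∈ Icc α β) :
    ContDiffAt ℝ (⊤ : ℕ∞) (pot f h c d) x := by
  refine m.H.pot_contDiffAt ?_ ?_
  · rcases eq_or_lt_of_le m.adm.hc with h1 | h1
    · exact Or.inl h1.symm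
    · right
      exact (m.H.f_pos x ((m.α_pos h1).trans_le hx.1) (hx.2.trans m.adm.hβ)).ne'
  · rcases eq_or_lt_of_le m.adm.hd with h1 | h1
    · exact Or.inl h1.symm
    · right
      exact (m.H.h_pos x (m.adm.hα.trans hx.1) (hx.2.trans_lt (m.β_lt h1))).ne'

lemma Cr.pot_contOn (m : Cr L f h a c d α β) : ContinuousOn (pot f h c d) (Icc α β) :=
  fun _ hx => (m.pot_contDiffAt hx).continuousAt.continuousWithinAt

/-- Increasing the momenta keeps the data admissible. -/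
lemma Cr.adm_up (m : Cr L f h a c d α β) {c' d' : ℝ} (h1 : c ≤ c') (h2 : d ≤ d')
    (h3 : c' + d' ≤ a) : Adm L f h a c' d' α β := by
  have A := m.adm
  have e1 : c ^ 2 ≤ c' ^ 2 := pow_le_pow_left₀ A.hc h1 2
  have e2 : d ^ 2 ≤ d' ^ 2 := pow_le_pow_left₀ A.hd h2 2
  have hp : ∀ x, poly f h c d x ≤ poly f h c' d' x := by
    intro x
    unfold poly
    nlinarith [mul_le_mul_of_nonneg_right e1 (sq_nonneg (h x)),
      mul_le_mul_of_nonneg_right e2 (sq_nonneg (f x))]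
  refine ⟨A.hc.trans h1, A.hd.trans h2, h3, A.hα, A.hαβ, A.hβ, A.pα.trans (hp α),
    A.pβ.trans (hp β), A.fα.trans ?_, A.hβ2.trans ?_⟩
  · exact mul_le_mul h1 (by linarith) (by linarith [A.hc, A.hd]) (A.hc.trans h1)
  · exact mul_le_mul h2 (by linarith) (by linarith [A.hc, A.hd]) (A.hd.trans h2)

/-- General upper estimate from an increasing variation `c + ε v₁`, `d + ε v₂`. -/
lemma Cr.drop (m : Cr L f h a c d α β) {v₁ v₂ p q : ℝ} (hv₁ : 0 ≤ v₁) (hv₂ : 0 ≤ v₂)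
    (hp : α < p) (hpq : p ≤ q) (hq : q < β) :
    ∫ x in p..q, (2 * c * v₁ / f x ^ 2 + 2 * d * v₂ / h x ^ 2) / (2 * √(pot f h c d x))
      ≤ π / 2 * (v₁ + v₂) := by
  have A := m.adm
  set ε₀ := (a - c - d) / (v₁ + v₂ + 1) with hε₀
  have hε₀pos : 0 < ε₀ := div_pos (by linarith [m.cd_lt]) (by positivity)
  have hsub : ∀ x ∈ Icc p q, x ∈ Ioo α β := fun x hx => ⟨hp.trans_le hx.1, hx.2.trans_lt hq⟩
  have hfc := m.H.fc
  have hhc := m.H.hc
  refine var_drop (α := α) (β := β) (ε₀ := ε₀) (U := pot f h c d)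
    (V := fun ε x => pot f h (c + ε * v₁) (d + ε * v₂) x) hp.le hpq hq.le hε₀pos
    (m.pot_contOn.mono fun x hx => ⟨(hsub x hx).1.le, (hsub x hx).2.le⟩)
    (fun x hx => m.potpos (hsub x hx)) ?_ ?_ ?_ ?_ (m.H.ii _ _ _ _) (fun ε => m.H.ii _ _ _ _) ?_
  · refine ContinuousOn.add ?_ ?_
    · exact continuousOn_const.div (hfc.continuousOn.pow 2)
        (fun x hx => pow_ne_zero 2 (m.fpos (hsub x hx)).ne')
    · exact continuousOn_const.div (hhc.continuousOn.pow 2)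
        (fun x hx => pow_ne_zero 2 (m.hpos (hsub x hx)).ne')
  · intro x _
    have := A.hc
    have := A.hd
    positivity
  · intro ε hε x hx
    have hε0 := hε.1
    have hf := m.fpos (hsub x hx)
    have hh := m.hpos (hsub x hx)
    have e1 : 2 * c * v₁ * ε / f x ^ 2 ≤ ((c + ε * v₁) ^ 2 - c ^ 2) / f x ^ 2 := by
      apply div_le_div_of_nonneg_right _ (by positivity)
      nlinarith [sq_nonneg (ε * v₁)]
    have e2 : 2 * d * v₂ * ε / h x ^ 2 ≤ ((d + ε * v₂) ^ 2 - d ^ 2) / h x ^ 2 := by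
      apply div_le_div_of_nonneg_right _ (by positivity)
      nlinarith [sq_nonneg (ε * v₂)]
    rw [sub_div] at e1 e2
    have e3 : ε * (2 * c * v₁ / f x ^ 2 + 2 * d * v₂ / h x ^ 2)
        = 2 * c * v₁ * ε / f x ^ 2 + 2 * d * v₂ * ε / h x ^ 2 := by ring
    rw [e3]
    unfold pot
    linarith
  · intro ε hε x _
    have hε0 := hε.1
    refine pot_anti (pow_le_pow_left₀ A.hc ?_ 2) (pow_le_pow_left₀ A.hd ?_ 2)
    · nlinarith
    · nlinarith
  · intro ε hε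
    have hε0 := hε.1
    have h1 : c + ε * v₁ + (d + ε * v₂) ≤ a := by
      have h2 : ε * (v₁ + v₂ + 1) < a - c - d := by
        have := hε.2
        rwa [hε₀, lt_div_iff₀ (by positivity)] at this
      nlinarith
    have h3 := m.isMin _ _ _ _ (m.adm_up (c' := c + ε * v₁) (d' := d + ε * v₂) (by nlinarith)
      (by nlinarith) h1)
    unfold fun1 act at h3
    have h4 : π * (c + ε * v₁ + (d + ε * v₂)) = π * (c + d) + 2 * (π / 2 * (v₁ + v₂) * ε) := by ring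
    rw [h4] at h3
    linarith

/-- The left end is transversal. -/
lemma Cr.dleft (m : Cr L f h a c d α β) (hc : 0 < c) : 0 < deriv (pot f h c d) α := by
  have hα := m.α_pos hc
  have hcont := m.pot_contDiffAt (x := α) ⟨le_rfl, m.lt.le⟩
  obtain ⟨δ, hδ, hball⟩ : ∃ δ > 0, ∀ x, |x - α| < δ → pot f h c d x < 1 / 2 := by
    have h1 : ∀ᶠ x in 𝓝 α, pot f h c d x < 1 / 2 :=
      hcont.continuousAt.eventually (p := fun y => y < 1 / 2)
        (gt_mem_nhds (by rw [m.potα hc]; norm_num))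
    obtain ⟨δ, hδ, hb⟩ := Metric.eventually_nhds_iff.1 h1
    exact ⟨δ, hδ, fun x hx => hb (by rw [Real.dist_eq]; exact hx)⟩
  refine nondeg_left (δ₀ := δ) (κ := π / 2 * (c + d)) hδ m.lt hcont (m.potα hc)
    (m.pot_contOn.mono Ioo_subset_Icc_self) (fun x hx => m.potpos hx) ?_
  intro p q hp hq1 hpq hq2
  refine le_trans ?_ (m.drop m.adm.hc m.adm.hd hp hpq hq2)
  have hsub : ∀ x ∈ Icc p q, x ∈ Ioo α β := fun x hx => ⟨hp.trans_le hx.1, hx.2.trans_lt hq2⟩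
  have hs : ∀ x ∈ Icc p q, 2 * √(pot f h c d x) ≠ 0 := fun x hx => by
    have := Real.sqrt_pos.2 (m.potpos (hsub x hx))
    positivity
  have hcs : ContinuousOn (fun x => 2 * √(pot f h c d x)) (Icc p q) :=
    continuousOn_const.mul ((m.pot_contOn.mono fun x hx => ⟨(hsub x hx).1.le, (hsub x hx).2.le⟩).sqrt)
  refine intervalIntegral.integral_mono_on hpq ?_ ?_ ?_
  · exact (continuousOn_const.div hcs hs).intervalIntegrable_of_Icc hpq
  · refine (ContinuousOn.div (ContinuousOn.add ?_ ?_) hcs hs).intervalIntegrable_of_Icc hpq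
    · exact continuousOn_const.div (m.H.fc.continuousOn.pow 2)
        (fun x hx => pow_ne_zero 2 (m.fpos (hsub x hx)).ne')
    · exact continuousOn_const.div (m.H.hc.continuousOn.pow 2)
        (fun x hx => pow_ne_zero 2 (m.hpos (hsub x hx)).ne')
  · intro x hx
    have h1 : |x - α| < δ := by
      rw [abs_of_pos (by linarith [hx.1])]; linarith [hx.2]
    have h2 := hball x h1
    apply div_le_div_of_nonneg_right _ (by positivity)
    have h3 : pot f h c d x = 1 - (c ^ 2 / f x ^ 2 + d ^ 2 / h x ^ 2) := by unfold pot; ring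
    have h4 : 2 * c * c / f x ^ 2 + 2 * d * d / h x ^ 2
        = 2 * (c ^ 2 / f x ^ 2 + d ^ 2 / h x ^ 2) := by ring
    rw [h4]
    linarith

/-- The right end is transversal. -/
lemma Cr.dright (m : Cr L f h a c d α β) (hd : 0 < d) : deriv (pot f h c d) β < 0 := by
  have hβ := m.β_lt hd
  have hcont := m.pot_contDiffAt (x := β) ⟨m.lt.le, le_rfl⟩
  obtain ⟨δ, hδ, hball⟩ : ∃ δ > 0, ∀ x, |x - β| < δ → pot f h c d x < 1 / 2 := by
    have h1 : ∀ᶠ x in 𝓝 β, pot f h c d x < 1 / 2 :=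
      hcont.continuousAt.eventually (p := fun y => y < 1 / 2)
        (gt_mem_nhds (by rw [m.potβ hd]; norm_num))
    obtain ⟨δ, hδ, hb⟩ := Metric.eventually_nhds_iff.1 h1
    exact ⟨δ, hδ, fun x hx => hb (by rw [Real.dist_eq]; exact hx)⟩
  refine nondeg_right (δ₀ := δ) (κ := π / 2 * (c + d)) hδ m.lt hcont (m.potβ hd)
    (m.pot_contOn.mono Ioo_subset_Icc_self) (fun x hx => m.potpos hx) ?_
  intro p q hp hp2 hpq hq2
  refine le_trans ?_ (m.drop m.adm.hc m.adm.hd hp hpq hq2)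
  have hsub : ∀ x ∈ Icc p q, x ∈ Ioo α β := fun x hx => ⟨hp.trans_le hx.1, hx.2.trans_lt hq2⟩
  have hs : ∀ x ∈ Icc p q, 2 * √(pot f h c d x) ≠ 0 := fun x hx => by
    have := Real.sqrt_pos.2 (m.potpos (hsub x hx))
    positivity
  have hcs : ContinuousOn (fun x => 2 * √(pot f h c d x)) (Icc p q) :=
    continuousOn_const.mul ((m.pot_contOn.mono fun x hx => ⟨(hsub x hx).1.le, (hsub x hx).2.le⟩).sqrt)
  refine intervalIntegral.integral_mono_on hpq ?_ ?_ ?_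
  · exact (continuousOn_const.div hcs hs).intervalIntegrable_of_Icc hpq
  · refine (ContinuousOn.div (ContinuousOn.add ?_ ?_) hcs hs).intervalIntegrable_of_Icc hpq
    · exact continuousOn_const.div (m.H.fc.continuousOn.pow 2)
        (fun x hx => pow_ne_zero 2 (m.fpos (hsub x hx)).ne')
    · exact continuousOn_const.div (m.H.hc.continuousOn.pow 2)
        (fun x hx => pow_ne_zero 2 (m.hpos (hsub x hx)).ne')
  · intro x hx
    have h1 : |x - β| < δ := by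
      rw [abs_sub_comm, abs_of_pos (by linarith [hx.2])]; linarith [hx.1]
    have h2 := hball x h1
    apply div_le_div_of_nonneg_right _ (by positivity)
    have h3 : pot f h c d x = 1 - (c ^ 2 / f x ^ 2 + d ^ 2 / h x ^ 2) := by unfold pot; ring
    have h4 : 2 * c * c / f x ^ 2 + 2 * d * d / h x ^ 2
        = 2 * (c ^ 2 / f x ^ 2 + d ^ 2 / h x ^ 2) := by ring
    rw [h4]
    linarith

/-- Moving the left end. -/
lemma Cr.move_left (m : Cr L f h a c d α β) :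
    ∃ C > 0, ∃ K ≥ 0, ∃ ε₀ > 0, ∃ A : ℝ → ℝ, ∀ ε ∈ Ioo 0 ε₀, α - C * ε ≤ A ε ∧ A ε ≤ α ∧ 0 ≤ A ε ∧
      ∀ c' d', 0 ≤ c' → 0 ≤ d' → c - ε ≤ c' → c' ≤ c → d - ε ≤ d' → d' ≤ d →
        0 ≤ poly f h c' d' (A ε) ∧ f (A ε) ^ 2 ≤ c' * (c' + d') ∧
        ∀ x ∈ Ioo (A ε) α, pot f h c' d' x ≤ K * ε := by
  have A := m.adm
  rcases eq_or_lt_of_le A.hc with h0 | h0
  · refine ⟨1, one_pos, 0, le_rfl, 1, one_pos, fun _ => α, ?_⟩
    intro ε hε
    have hα0 := m.α_zero h0.symm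
    refine ⟨by linarith [hε.1], le_rfl, A.hα, ?_⟩
    intro c' d' h1 h2 h3 h4 h5 h6
    have hc' : c' = 0 := le_antisymm (by linarith) h1
    refine ⟨?_, ?_, ?_⟩
    · simp only [hα0, poly, m.H.f_zero, hc']; nlinarith
    · simp only [hα0, m.H.f_zero, hc']; nlinarith
    · intro x hx; exact absurd (hx.1.trans hx.2) (lt_irrefl _)
  · have hα := m.α_pos h0
    have hαL : α < L := m.lt.trans_le A.hβ
    have hfα := m.H.f_pos α hα hαL.le
    obtain ⟨C, hC, K, hK, ε₁, hε₁, hmove⟩ := m.H.end_move (Or.inr rfl) A.hc A.hd ⟨hα, hαL⟩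
      (m.potα h0) (by linarith [m.dleft h0])
    -- the alternative with `h` is excluded near `α`
    have hstrict : d * (c + d) < h α ^ 2 := by
      by_contra hcon
      push Not at hcon
      exact excl m.cd_pos.le A.hcd (m.rho α ⟨hα.le, hαL.le⟩) ⟨A.fα, hcon⟩
    have hev : ∀ᶠ y in 𝓝 α, d * (c + d) < h y ^ 2 :=
      (m.H.hc.pow 2).continuousAt.eventually (p := fun y => d * (c + d) < y)
        (lt_mem_nhds hstrict)
    obtain ⟨δ, hδ, hball⟩ := Metric.eventually_nhds_iff.1 hev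
    refine ⟨C, hC, K, hK, min ε₁ (δ / C), lt_min hε₁ (by positivity), fun ε => α - C * ε, ?_⟩
    intro ε hε
    have hε0 := hε.1
    have hε1 : ε ∈ Ioo 0 ε₁ := ⟨hε.1, hε.2.trans_le (min_le_left _ _)⟩
    have hε2 : C * ε < δ := by
      have := hε.2.trans_le (min_le_right _ _)
      rw [lt_div_iff₀ hC] at this
      linarith
    have hCε : 0 < C * ε := by positivity
    obtain ⟨hin, hrest⟩ := hmove ε hε1
    have e1 : α + -1 * (C * ε) = α - C * ε := by ring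
    rw [e1] at hin hrest
    refine ⟨le_rfl, by linarith, hin.1.le, ?_⟩
    intro c' d' h1 h2 h3 h4 h5 h6
    obtain ⟨hp1, hp2⟩ := hrest c' d' h1 h2 h3 h4 h5 h6
    have hf' := m.H.f_pos _ hin.1 hin.2.le
    have hh' := m.H.h_pos _ hin.1.le hin.2
    have hpoly : 0 ≤ poly f h c' d' (α - C * ε) := (pot_nonpos_iff hf'.ne' hh'.ne').1 hp1
    refine ⟨hpoly, ?_, ?_⟩
    · rcases dich h1 h2 hpoly with h7 | h7
      · exact h7
      · exfalso
        have h8 := hball (y := α - C * ε) (by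
          rw [Real.dist_eq, sub_sub_cancel_left, abs_neg, abs_of_pos hCε]; exact hε2)
        have h9 : d' * (c' + d') ≤ d * (c + d) :=
          mul_le_mul h6 (by linarith) (by linarith) A.hd
        linarith
    · intro x hx
      have h10 := hp2 (α - x) ⟨by linarith [hx.2], by linarith [hx.1]⟩
      have e2 : α + -1 * (α - x) = x := by ring
      rw [e2] at h10
      exact h10

/-- Moving the right end. -/
lemma Cr.move_right (m : Cr L f h a c d α β) :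
    ∃ C > 0, ∃ K ≥ 0, ∃ ε₀ > 0, ∃ B : ℝ → ℝ, ∀ ε ∈ Ioo 0 ε₀, β ≤ B ε ∧ B ε ≤ β + C * ε ∧ B ε ≤ L ∧
      ∀ c' d', 0 ≤ c' → 0 ≤ d' → c - ε ≤ c' → c' ≤ c → d - ε ≤ d' → d' ≤ d →
        0 ≤ poly f h c' d' (B ε) ∧ h (B ε) ^ 2 ≤ d' * (c' + d') ∧
        ∀ x ∈ Ioo β (B ε), pot f h c' d' x ≤ K * ε := by
  have A := m.adm
  rcases eq_or_lt_of_le A.hd with h0 | h0
  · refine ⟨1, one_pos, 0, le_rfl, 1, one_pos, fun _ => β, ?_⟩
    intro ε hε
    have hβL := m.β_L h0.symm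
    refine ⟨le_rfl, by linarith [hε.1], A.hβ, ?_⟩
    intro c' d' h1 h2 h3 h4 h5 h6
    have hd' : d' = 0 := le_antisymm (by linarith) h2
    refine ⟨?_, ?_, ?_⟩
    · simp only [hβL, poly, m.H.h_L, hd']; nlinarith
    · simp only [hβL, m.H.h_L, hd']; nlinarith
    · intro x hx; exact absurd (hx.1.trans hx.2) (lt_irrefl _)
  · have hβ := m.β_lt h0
    have hβ0 : 0 < β := A.hα.trans_lt m.lt
    obtain ⟨C, hC, K, hK, ε₁, hε₁, hmove⟩ := m.H.end_move (Or.inl rfl) A.hc A.hd ⟨hβ0, hβ⟩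
      (m.potβ h0) (by linarith [m.dright h0])
    have hstrict : c * (c + d) < f β ^ 2 := by
      by_contra hcon
      push Not at hcon
      exact excl m.cd_pos.le A.hcd (m.rho β ⟨hβ0.le, hβ.le⟩) ⟨hcon, A.hβ2⟩
    have hev : ∀ᶠ y in 𝓝 β, c * (c + d) < f y ^ 2 :=
      (m.H.fc.pow 2).continuousAt.eventually (p := fun y => c * (c + d) < y)
        (lt_mem_nhds hstrict)
    obtain ⟨δ, hδ, hball⟩ := Metric.eventually_nhds_iff.1 hev
    refine ⟨C, hC, K, hK, min ε₁ (δ / C), lt_min hε₁ (by positivity), fun ε => β + C * ε, ?_⟩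
    intro ε hε
    have hε0 := hε.1
    have hε1 : ε ∈ Ioo 0 ε₁ := ⟨hε.1, hε.2.trans_le (min_le_left _ _)⟩
    have hε2 : C * ε < δ := by
      have := hε.2.trans_le (min_le_right _ _)
      rw [lt_div_iff₀ hC] at this
      linarith
    have hCε : 0 < C * ε := by positivity
    obtain ⟨hin, hrest⟩ := hmove ε hε1
    rw [one_mul] at hin hrest
    refine ⟨by linarith, le_rfl, hin.2.le, ?_⟩
    intro c' d' h1 h2 h3 h4 h5 h6
    obtain ⟨hp1, hp2⟩ := hrest c' d' h1 h2 h3 h4 h5 h6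
    have hf' := m.H.f_pos _ hin.1 hin.2.le
    have hh' := m.H.h_pos _ hin.1.le hin.2
    have hpoly : 0 ≤ poly f h c' d' (β + C * ε) := (pot_nonpos_iff hf'.ne' hh'.ne').1 hp1
    refine ⟨hpoly, ?_, ?_⟩
    · rcases dich h1 h2 hpoly with h7 | h7
      · exfalso
        have h8 := hball (y := β + C * ε) (by
          rw [Real.dist_eq, add_sub_cancel_left, abs_of_pos hCε]; exact hε2)
        have h9 : c' * (c' + d') ≤ c * (c + d) :=
          mul_le_mul h4 (by linarith) (by linarith) A.hc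
        linarith
      · exact h7
    · intro x hx
      have h10 := hp2 (x - β) ⟨by linarith [hx.1], by linarith [hx.2]⟩
      have e2 : β + 1 * (x - β) = x := by ring
      rw [e2] at h10
      exact h10

/-- General lower estimate from a decreasing variation `c - ε v₁`, `d - ε v₂`. -/
lemma Cr.rise (m : Cr L f h a c d α β) {v₁ v₂ : ℝ} (hv₁ : 0 ≤ v₁) (hv₂ : 0 ≤ v₂)
    (hv₁' : v₁ ≤ 1) (hv₂' : v₂ ≤ 1) (hc1 : c = 0 → v₁ = 0) (hd1 : d = 0 → v₂ = 0)
    (hiw : IntervalIntegrable (fun x => (2 * c * v₁ / f x ^ 2 + 2 * d * v₂ / h x ^ 2)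
      / (2 * √(pot f h c d x))) volume α β) :
    π / 2 * (v₁ + v₂) ≤
      ∫ x in α..β, (2 * c * v₁ / f x ^ 2 + 2 * d * v₂ / h x ^ 2) / (2 * √(pot f h c d x)) := by
  have A := m.adm
  obtain ⟨C₁, hC₁, K₁, hK₁, ε₁, hε₁, a', ha'⟩ := m.move_left
  obtain ⟨C₂, hC₂, K₂, hK₂, ε₂, hε₂, b', hb'⟩ := m.move_right
  -- small steps keep the momenta nonnegative
  obtain ⟨ε₃, hε₃, hcpos, hdpos⟩ : ∃ ε₃ > 0, (∀ ε, 0 ≤ ε → ε < ε₃ → 0 ≤ c - ε * v₁) ∧
      (∀ ε, 0 ≤ ε → ε < ε₃ → 0 ≤ d - ε * v₂) := by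
    have e1 : ∃ e > 0, ∀ ε, 0 ≤ ε → ε < e → 0 ≤ c - ε * v₁ := by
      rcases eq_or_lt_of_le A.hc with h0 | h0
      · exact ⟨1, one_pos, fun ε _ _ => by rw [hc1 h0.symm, ← h0]; simp⟩
      · exact ⟨c, h0, fun ε h1 h2 => by nlinarith⟩
    have e2 : ∃ e > 0, ∀ ε, 0 ≤ ε → ε < e → 0 ≤ d - ε * v₂ := by
      rcases eq_or_lt_of_le A.hd with h0 | h0
      · exact ⟨1, one_pos, fun ε _ _ => by rw [hd1 h0.symm, ← h0]; simp⟩
      · exact ⟨d, h0, fun ε h1 h2 => by nlinarith⟩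
    obtain ⟨e, he, h1⟩ := e1
    obtain ⟨e', he', h2⟩ := e2
    exact ⟨min e e', lt_min he he', fun ε h3 h4 => h1 ε h3 (h4.trans_le (min_le_left _ _)),
      fun ε h3 h4 => h2 ε h3 (h4.trans_le (min_le_right _ _))⟩
  set ε₀ := min (min ε₁ ε₂) ε₃ with hε₀
  have hε₀pos : 0 < ε₀ := lt_min (lt_min hε₁ hε₂) hε₃
  have g1 : ∀ ε ∈ Ioo 0 ε₀, ε ∈ Ioo 0 ε₁ := fun ε hε =>
    ⟨hε.1, hε.2.trans_le ((min_le_left _ _).trans (min_le_left _ _))⟩
  have g2 : ∀ ε ∈ Ioo 0 ε₀, ε ∈ Ioo 0 ε₂ := fun ε hε =>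
    ⟨hε.1, hε.2.trans_le ((min_le_left _ _).trans (min_le_right _ _))⟩
  have g3 : ∀ ε ∈ Ioo 0 ε₀, ε < ε₃ := fun ε hε => hε.2.trans_le (min_le_right _ _)
  have hL : ∀ ε ∈ Ioo 0 ε₀, 0 ≤ poly f h (c - ε * v₁) (d - ε * v₂) (a' ε) ∧
      f (a' ε) ^ 2 ≤ (c - ε * v₁) * (c - ε * v₁ + (d - ε * v₂)) ∧
      ∀ x ∈ Ioo (a' ε) α, pot f h (c - ε * v₁) (d - ε * v₂) x ≤ K₁ * ε := by
    intro ε hε
    have hε0 := hε.1
    exact (ha' ε (g1 ε hε)).2.2.2 _ _ (hcpos ε hε0.le (g3 ε hε)) (hdpos ε hε0.le (g3 ε hε))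
      (by nlinarith) (by nlinarith) (by nlinarith) (by nlinarith)
  have hR : ∀ ε ∈ Ioo 0 ε₀, 0 ≤ poly f h (c - ε * v₁) (d - ε * v₂) (b' ε) ∧
      h (b' ε) ^ 2 ≤ (d - ε * v₂) * (c - ε * v₁ + (d - ε * v₂)) ∧
      ∀ x ∈ Ioo β (b' ε), pot f h (c - ε * v₁) (d - ε * v₂) x ≤ K₂ * ε := by
    intro ε hε
    have hε0 := hε.1
    exact (hb' ε (g2 ε hε)).2.2.2 _ _ (hcpos ε hε0.le (g3 ε hε)) (hdpos ε hε0.le (g3 ε hε))
      (by nlinarith) (by nlinarith) (by nlinarith) (by nlinarith)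
  refine var_rise (ε₀ := ε₀) (C := C₁ + C₂) (K := K₁ + K₂) (U := pot f h c d)
    (V := fun ε x => pot f h (c - ε * v₁) (d - ε * v₂) x) (a := a') (b := b') m.lt.le hε₀pos
    (fun x hx => m.potpos hx) ?_ ?_ ?_ ?_ ?_ ?_ (m.H.ii _ _ _ _) hiw (fun ε x y => m.H.ii _ _ _ _)
    ?_
  · intro x _
    have := A.hc
    have := A.hd
    positivity
  · intro ε hε x hx
    have hε0 := hε.1
    have hf := m.fpos hx
    have hh := m.hpos hx
    have e1 : (c ^ 2 - (c - ε * v₁) ^ 2) / f x ^ 2 ≤ 2 * c * v₁ * ε / f x ^ 2 := by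
      apply div_le_div_of_nonneg_right _ (by positivity)
      nlinarith [sq_nonneg (ε * v₁)]
    have e2 : (d ^ 2 - (d - ε * v₂) ^ 2) / h x ^ 2 ≤ 2 * d * v₂ * ε / h x ^ 2 := by
      apply div_le_div_of_nonneg_right _ (by positivity)
      nlinarith [sq_nonneg (ε * v₂)]
    rw [sub_div] at e1 e2
    have e3 : ε * (2 * c * v₁ / f x ^ 2 + 2 * d * v₂ / h x ^ 2)
        = 2 * c * v₁ * ε / f x ^ 2 + 2 * d * v₂ * ε / h x ^ 2 := by ring
    rw [e3]
    unfold pot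
    linarith
  · intro ε hε
    have h1 := ha' ε (g1 ε hε)
    have hε0 := hε.1
    exact ⟨by nlinarith [h1.1], h1.2.1⟩
  · intro ε hε
    have h1 := hb' ε (g2 ε hε)
    have hε0 := hε.1
    exact ⟨h1.1, by nlinarith [h1.2.1]⟩
  · intro ε hε x hx
    have hε0 := hε.1
    exact ((hL ε hε).2.2 x hx).trans (by nlinarith)
  · intro ε hε x hx
    have hε0 := hε.1
    exact ((hR ε hε).2.2 x hx).trans (by nlinarith)
  · intro ε hε
    have hε0 := hε.1
    have h1 := ha' ε (g1 ε hε)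
    have h2 := hb' ε (g2 ε hε)
    have h3 : Adm L f h a (c - ε * v₁) (d - ε * v₂) (a' ε) (b' ε) := by
      refine ⟨hcpos ε hε0.le (g3 ε hε), hdpos ε hε0.le (g3 ε hε), ?_, h1.2.2.1, ?_, h2.2.2.1,
        (hL ε hε).1, (hR ε hε).1, (hL ε hε).2.1, (hR ε hε).2.1⟩
      · have := A.hcd
        nlinarith
      · linarith [h1.2.1, h2.1, m.lt]
    have h4 := m.isMin _ _ _ _ h3
    unfold fun1 act at h4
    have h5 : π * (c - ε * v₁ + (d - ε * v₂)) = π * (c + d) - 2 * (π / 2 * (v₁ + v₂) * ε) := by ring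
    rw [h5] at h4
    linarith

/-- The first order condition. -/
lemma Cr.eq (m : Cr L f h a c d α β) {v₁ v₂ : ℝ} (hv₁ : 0 ≤ v₁) (hv₂ : 0 ≤ v₂)
    (hv₁' : v₁ ≤ 1) (hv₂' : v₂ ≤ 1) (hc1 : c = 0 → v₁ = 0) (hd1 : d = 0 → v₂ = 0)
    (hiw : IntervalIntegrable (fun x => (2 * c * v₁ / f x ^ 2 + 2 * d * v₂ / h x ^ 2)
      / (2 * √(pot f h c d x))) volume α β) :
    ∫ x in α..β, (2 * c * v₁ / f x ^ 2 + 2 * d * v₂ / h x ^ 2) / (2 * √(pot f h c d x))
      = π / 2 * (v₁ + v₂) :=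
  le_antisymm (int_le_of_sub m.lt hiw (fun _ _ hp hpq hq => m.drop hv₁ hv₂ hp hpq hq))
    (m.rise hv₁ hv₂ hv₁' hv₂' hc1 hd1 hiw)

end

end

end DWS
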