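import Mathlib

/-!
# Doubly warped metrics on the three-sphere

Polar coordinates: a point is given by a real number `r` (distance coordinate along the meridians)
and two angles `θ`, `φ`; the metric is `dr² + f(r)² dθ² + h(r)² dφ²`.
-/

namespace DWS

open Real

/-- Profile of a smooth doubly warped metric `dr² + f(r)² dθ² + h(r)² dφ²` on the three-sphere (a
smooth metric invariant under `O(2) × O(2)`): the two axes `r = 0` (where the `θ`-circles collapse)
and `r = L` (where the `φ`-circles collapse) have distance `L`; `f` and `h` extend to smooth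
functions on the line, `f` odd at `0` and even at `L`, `h` even at `0` and odd at `L`, positive
between the axes, with `f' = 1` at `0` and `h' = -1` at `L` (these are the conditions for the
metric to be smooth at the axes). -/
structure Profile (L : ℝ) (f h : ℝ → ℝ) : Prop where
  L_pos : 0 < L
  smooth_f : ContDiff ℝ (⊤ : ℕ∞) f
  smooth_h : ContDiff ℝ (⊤ : ℕ∞) h
  f_odd : ∀ r, f (-r) = - f r
  f_even : ∀ r, f (2 * L - r) = f r
  h_even : ∀ r, h (-r) = h r
  h_odd : ∀ r, h (2 * L - r) = - h r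
  f_pos : ∀ r, 0 < r → r ≤ L → 0 < f r
  h_pos : ∀ r, 0 ≤ r → r < L → 0 < h r
  deriv_zero : deriv f 0 = 1
  deriv_L : deriv h L = -1

/-- `t ↦ (r t, θ t, φ t)` is a smooth unit speed geodesic of `dr² + f(r)² dθ² + h(r)² dφ²`
(geodesic equations in polar coordinates). -/
structure IsUnitGeodesic (f h : ℝ → ℝ) (r θ φ : ℝ → ℝ) : Prop where
  smooth_r : ContDiff ℝ (⊤ : ℕ∞) r
  smooth_θ : ContDiff ℝ (⊤ : ℕ∞) θ
  smooth_φ : ContDiff ℝ (⊤ : ℕ∞) φ
  unit_speed : ∀ t, (deriv r t) ^ 2 + (f (r t)) ^ 2 * (deriv θ t) ^ 2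
      + (h (r t)) ^ 2 * (deriv φ t) ^ 2 = 1
  radial : ∀ t, deriv (deriv r) t = f (r t) * deriv f (r t) * (deriv θ t) ^ 2
      + h (r t) * deriv h (r t) * (deriv φ t) ^ 2
  angular_θ : ∀ t, f (r t) * deriv (deriv θ) t + 2 * deriv f (r t) * deriv r t * deriv θ t = 0
  angular_φ : ∀ t, h (r t) * deriv (deriv φ) t + 2 * deriv h (r t) * deriv r t * deriv φ t = 0

/-- The point of the unit sphere of `ℂ²` (the three-sphere) with polar coordinates `(r, θ, φ)`;
the axes are `r = 0` and `r = L`. -/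
noncomputable def spherePoint (L r θ φ : ℝ) : ℂ × ℂ :=
  (sin (π * r / (2 * L)) * Complex.exp (θ * Complex.I),
    cos (π * r / (2 * L)) * Complex.exp (φ * Complex.I))

/-- The geodesic `(r, θ, φ)` of the three-sphere with axis distance `L` closes after the
time `T`. -/
def Closes (L : ℝ) (r θ φ : ℝ → ℝ) (T : ℝ) : Prop :=
  0 < T ∧ ∀ t, spherePoint L (r (t + T)) (θ (t + T)) (φ (t + T)) = spherePoint L (r t) (θ t) (φ t)

/-- The volume of the three-sphere for the metric `dr² + f(r)² dθ² + h(r)² dφ²`. -/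
noncomputable def vol (f h : ℝ → ℝ) (L : ℝ) : ℝ := ∫ r in (0 : ℝ)..L, 4 * π ^ 2 * (f r * h r)

end DWS
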