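import Pool.Agent.DWS.Basic

/-!
# The volume bounds the integral of the action
-/

namespace DWS

open Set MeasureTheory Real Filter Topology

lemma quarter_disc {a : ℝ} (ha : 0 ≤ a) : ∫ t in (0 : ℝ)..a, √(1 - t ^ 2) ≤ π / 4 := by
  have hc : Continuous (fun t : ℝ => √(1 - t ^ 2)) := by fun_prop
  have hii : ∀ x y, IntervalIntegrable (fun t : ℝ => √(1 - t ^ 2)) volume x y :=
    fun x y => hc.intervalIntegrable x y
  have h1 : ∫ t in (0 : ℝ)..1, √(1 - t ^ 2) = π / 4 := by
    have h2 := integral_sqrt_one_sub_sq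
    rw [← intervalIntegral.integral_add_adjacent_intervals (hii (-1) 0) (hii 0 1)] at h2
    have h3 := intervalIntegral.integral_comp_neg (a := 0) (b := 1) (fun t : ℝ => √(1 - t ^ 2))
    rw [neg_zero] at h3
    simp only [neg_sq] at h3
    rw [← h3] at h2
    linarith
  rcases le_or_gt a 1 with h2 | h2
  · rw [← h1]
    exact intervalIntegral.integral_mono_interval le_rfl ha h2
      (Eventually.of_forall fun x => Real.sqrt_nonneg _) (hii 0 1)
  · rw [← intervalIntegral.integral_add_adjacent_intervals (hii 0 1) (hii 1 a), h1]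
    have h3 : ∫ t in (1 : ℝ)..a, √(1 - t ^ 2) = 0 := by
      rw [intervalIntegral.integral_congr (g := fun _ => (0 : ℝ))]
      · simp
      · intro t ht
        rw [uIcc_of_le h2.le] at ht
        simp only
        apply Real.sqrt_eq_zero_of_nonpos
        nlinarith [ht.1]
    rw [h3, add_zero]

lemma inner_d {a k η : ℝ} (ha : 0 ≤ a) (hη : 0 < η) :
    ∫ d in (0 : ℝ)..a, √(k - d ^ 2 / η ^ 2) ≤ π / 4 * (η * max k 0) := by
  have hπ := pi_pos
  rcases le_or_gt k 0 with hk | hk
  · rw [max_eq_right hk, mul_zero, mul_zero]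
    refine le_of_eq ?_
    rw [intervalIntegral.integral_congr (g := fun _ => (0 : ℝ))]
    · simp
    · intro t _
      simp only
      apply Real.sqrt_eq_zero_of_nonpos
      have : 0 ≤ t ^ 2 / η ^ 2 := by positivity
      linarith
  · rw [max_eq_left hk.le]
    set R := η * √k with hR
    have hsk : 0 < √k := Real.sqrt_pos.2 hk
    have hRpos : 0 < R := by positivity
    have e1 : ∀ d : ℝ, √(k - d ^ 2 / η ^ 2) = √k * √(1 - (d / R) ^ 2) := by
      intro d
      rw [← Real.sqrt_mul hk.le]
      congr 1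
      rw [hR, div_pow, mul_pow, Real.sq_sqrt hk.le]
      field_simp
    simp only [e1]
    rw [intervalIntegral.integral_const_mul]
    have e2 : ∫ d in (0 : ℝ)..a, √(1 - (d / R) ^ 2) = R * ∫ t in (0 : ℝ)..(a / R), √(1 - t ^ 2) := by
      have := intervalIntegral.integral_comp_div (a := 0) (b := a) (fun t => √(1 - t ^ 2)) hRpos.ne'
      rw [zero_div, smul_eq_mul] at this
      exact this
    rw [e2]
    have h3 := quarter_disc (a := a / R) (by positivity)
    have hsq : √k * √k = k := Real.mul_self_sqrt hk.le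
    calc √k * (R * ∫ t in (0 : ℝ)..(a / R), √(1 - t ^ 2))
        = (η * (√k * √k)) * ∫ t in (0 : ℝ)..(a / R), √(1 - t ^ 2) := by rw [hR]; ring
      _ = (η * k) * ∫ t in (0 : ℝ)..(a / R), √(1 - t ^ 2) := by rw [hsq]
      _ ≤ (η * k) * (π / 4) := mul_le_mul_of_nonneg_left h3 (by positivity)
      _ = π / 4 * (η * k) := by ring

lemma inner_c {a F : ℝ} (ha : 0 ≤ a) (hF : 0 < F) :
    ∫ c in (0 : ℝ)..a, max (1 - c ^ 2 / F ^ 2) 0 ≤ 2 / 3 * F := by
  have hc : Continuous (fun c : ℝ => max (1 - c ^ 2 / F ^ 2) 0) := by fun_prop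
  have hii : ∀ x y, IntervalIntegrable (fun c : ℝ => max (1 - c ^ 2 / F ^ 2) 0) volume x y :=
    fun x y => hc.intervalIntegrable x y
  have h1 : ∀ b, 0 ≤ b → b ≤ F → ∫ c in (0 : ℝ)..b, max (1 - c ^ 2 / F ^ 2) 0 ≤ 2 / 3 * F := by
    intro b hb hbF
    have e1 : ∫ c in (0 : ℝ)..b, max (1 - c ^ 2 / F ^ 2) 0 = ∫ c in (0 : ℝ)..b, (1 - c ^ 2 / F ^ 2) := by
      apply intervalIntegral.integral_congr
      intro c hc
      rw [uIcc_of_le hb] at hc
      simp only
      apply max_eq_left
      have : c ^ 2 / F ^ 2 ≤ 1 := by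
        rw [div_le_one (by positivity)]
        exact pow_le_pow_left₀ hc.1 (hc.2.trans hbF) 2
      linarith
    have hder : ∀ c ∈ uIcc 0 b, HasDerivAt (fun c => c - c ^ 3 / (3 * F ^ 2)) (1 - c ^ 2 / F ^ 2) c := by
      intro c _
      have := (hasDerivAt_id c).sub (((hasDerivAt_id c).pow 3).div_const (3 * F ^ 2))
      refine this.congr_deriv ?_
      simp only [id, Nat.cast_ofNat]
      field_simp
    rw [e1, intervalIntegral.integral_eq_sub_of_hasDerivAt hder
      (Continuous.intervalIntegrable (by fun_prop) _ _)]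
    have e2 : b - b ^ 3 / (3 * F ^ 2) - (0 - 0 ^ 3 / (3 * F ^ 2)) = (3 * b * F ^ 2 - b ^ 3) / (3 * F ^ 2) := by
      field_simp; ring
    rw [e2, div_le_iff₀ (by positivity)]
    nlinarith [mul_nonneg (sq_nonneg (b - F)) (by linarith : 0 ≤ b + 2 * F)]
  rcases le_or_gt a F with h2 | h2
  · exact h1 a ha h2
  · rw [← intervalIntegral.integral_add_adjacent_intervals (hii 0 F) (hii F a)]
    have h3 : ∫ c in F..a, max (1 - c ^ 2 / F ^ 2) 0 = 0 := by
      rw [intervalIntegral.integral_congr (g := fun _ => (0 : ℝ))]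
      · simp
      · intro t ht
        rw [uIcc_of_le h2.le] at ht
        simp only
        apply max_eq_right
        have : 1 ≤ t ^ 2 / F ^ 2 := by
          rw [le_div_iff₀ (by positivity), one_mul]
          exact pow_le_pow_left₀ hF.le ht.1 2
        linarith
    rw [h3, add_zero]
    exact h1 F hF.le le_rfl

/-- Exchange of the order of integration for bounded measurable functions on a rectangle. -/
lemma swap_int {F : ℝ → ℝ → ℝ} {a b M : ℝ} (ha : 0 ≤ a) (hb : 0 ≤ b)
    (hm : Measurable (Function.uncurry F)) (hM : ∀ c ∈ Ioc 0 a, ∀ x ∈ Ioc 0 b, |F c x| ≤ M) :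
    (∫ c in (0 : ℝ)..a, ∫ x in (0 : ℝ)..b, F c x) = (∫ x in (0 : ℝ)..b, ∫ c in (0 : ℝ)..a, F c x) ∧
    IntervalIntegrable (fun c => ∫ x in (0 : ℝ)..b, F c x) volume 0 a ∧
    IntervalIntegrable (fun x => ∫ c in (0 : ℝ)..a, F c x) volume 0 b := by
  have hint : Integrable (Function.uncurry F)
      ((volume.restrict (Ioc 0 a)).prod (volume.restrict (Ioc 0 b))) := by
    have h1 : Integrable (fun _ : ℝ × ℝ => M)
        ((volume.restrict (Ioc 0 a)).prod (volume.restrict (Ioc 0 b))) :=
      integrable_const M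
    refine Integrable.mono' h1 hm.aestronglyMeasurable ?_
    rw [Measure.prod_restrict]
    filter_upwards [ae_restrict_mem (measurableSet_Ioc.prod measurableSet_Ioc)] with p hp
    exact hM p.1 hp.1 p.2 hp.2
  have hswap := integral_integral_swap hint
  simp only [intervalIntegral.integral_of_le ha, intervalIntegral.integral_of_le hb,
    intervalIntegrable_iff_integrableOn_Ioc_of_le ha,
    intervalIntegrable_iff_integrableOn_Ioc_of_le hb]
  exact ⟨hswap, hint.integral_prod_left, hint.integral_prod_right⟩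

section
variable {L : ℝ} {f h : ℝ → ℝ}

/-- The integral of the action over the square of momenta. -/
lemma Profile.total_le (H : Profile L f h) {a : ℝ} (ha : 0 ≤ a) :
    ∫ c in (0 : ℝ)..a, ∫ d in (0 : ℝ)..a, act f h c d 0 L
      ≤ π / 6 * ∫ x in (0 : ℝ)..L, f x * h x := by
  have hπ := pi_pos
  have hL := H.L_pos.le
  have hf := H.fc.measurable
  have hh := H.hc.measurable
  obtain ⟨M, hM⟩ : ∃ M, ∀ x ∈ Icc 0 L, h x ≤ M := by
    obtain ⟨z, _, hz⟩ := isCompact_Icc.exists_isMaxOn (nonempty_Icc.2 hL)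
      (H.hc.continuousOn (s := Icc 0 L))
    exact ⟨h z, fun x hx => hz hx⟩
  -- inner swap
  have s1 : ∀ c : ℝ, (∫ d in (0 : ℝ)..a, act f h c d 0 L)
      ≤ ∫ x in (0 : ℝ)..L, π / 4 * (h x * max (1 - c ^ 2 / f x ^ 2) 0) := by
    intro c
    have hmeas : Measurable (Function.uncurry fun d x => √(pot f h c d x)) := by
      unfold pot Function.uncurry
      fun_prop
    obtain ⟨e1, _, e3⟩ := swap_int (F := fun d x => √(pot f h c d x)) (M := 1) ha hL hmeas
      (fun d _ x _ => by rw [abs_of_nonneg (Real.sqrt_nonneg _)]; exact sqrt_pot_le_one)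
    unfold act
    rw [e1]
    refine intervalIntegral.integral_mono_on_of_le_Ioo hL e3 ?_ ?_
    · refine (intervalIntegrable_const (c := π / 4 * M)).mono_fun
        (by exact Measurable.aestronglyMeasurable (by fun_prop)) ?_
      rw [uIoc_of_le hL]
      filter_upwards [ae_restrict_mem measurableSet_Ioc] with x hx
      have h0 := H.h_nonneg hx.1.le hx.2
      have h1 := hM x ⟨hx.1.le, hx.2⟩
      have h2 : max (1 - c ^ 2 / f x ^ 2) 0 ≤ 1 := by
        apply max_le _ zero_le_one
        have : 0 ≤ c ^ 2 / f x ^ 2 := by positivity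
        linarith
      have h3 : 0 ≤ max (1 - c ^ 2 / f x ^ 2) 0 := le_max_right _ _
      beta_reduce
      rw [Real.norm_of_nonneg (by positivity), Real.norm_of_nonneg (by
        have : 0 ≤ M := h0.trans h1
        positivity)]
      have h4 : h x * max (1 - c ^ 2 / f x ^ 2) 0 ≤ M * 1 := mul_le_mul h1 h2 h3 (h0.trans h1)
      rw [mul_one] at h4
      exact mul_le_mul_of_nonneg_left h4 (by positivity)
    · intro x hx
      have e4 : ∀ d, pot f h c d x = (1 - c ^ 2 / f x ^ 2) - d ^ 2 / h x ^ 2 := fun d => rfl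
      simp only [e4]
      exact inner_d ha (H.h_pos x hx.1.le hx.2)
  -- outer swap
  have hmeas2 : Measurable (Function.uncurry fun c x => π / 4 * (h x * max (1 - c ^ 2 / f x ^ 2) 0)) := by
    unfold Function.uncurry
    fun_prop
  obtain ⟨e1, e2, e3⟩ := swap_int (F := fun c x => π / 4 * (h x * max (1 - c ^ 2 / f x ^ 2) 0))
    (M := π / 4 * M) ha hL hmeas2 (fun c _ x hx => by
      have h0 := H.h_nonneg hx.1.le hx.2
      have h1 := hM x ⟨hx.1.le, hx.2⟩
      have h2 : max (1 - c ^ 2 / f x ^ 2) 0 ≤ 1 := by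
        apply max_le _ zero_le_one
        have : 0 ≤ c ^ 2 / f x ^ 2 := by positivity
        linarith
      have h3 : 0 ≤ max (1 - c ^ 2 / f x ^ 2) 0 := le_max_right _ _
      rw [abs_of_nonneg (by positivity)]
      have h4 : h x * max (1 - c ^ 2 / f x ^ 2) 0 ≤ M * 1 := mul_le_mul h1 h2 h3 (h0.trans h1)
      rw [mul_one] at h4
      exact mul_le_mul_of_nonneg_left h4 (by positivity))
  have hWint : IntervalIntegrable (fun c => ∫ d in (0 : ℝ)..a, act f h c d 0 L) volume 0 a := by
    have hc : Continuous (fun p : (ℝ × ℝ) × ℝ => act f h p.1.1 p.1.2 0 p.2) := by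
      have := H.prim_cont
      unfold act
      exact this
    have hc2 : Continuous (Function.uncurry fun c d => act f h c d 0 L) :=
      hc.comp (f := fun p : ℝ × ℝ => (p, L)) (by fun_prop)
    exact (intervalIntegral.continuous_parametric_intervalIntegral_of_continuous' hc2 0 a).intervalIntegrable 0 a
  calc ∫ c in (0 : ℝ)..a, ∫ d in (0 : ℝ)..a, act f h c d 0 L
      ≤ ∫ c in (0 : ℝ)..a, ∫ x in (0 : ℝ)..L, π / 4 * (h x * max (1 - c ^ 2 / f x ^ 2) 0) :=
        intervalIntegral.integral_mono_on ha hWint e2 (fun c _ => s1 c)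
    _ = ∫ x in (0 : ℝ)..L, ∫ c in (0 : ℝ)..a, π / 4 * (h x * max (1 - c ^ 2 / f x ^ 2) 0) := e1
    _ ≤ ∫ x in (0 : ℝ)..L, π / 6 * (f x * h x) := by
        refine intervalIntegral.integral_mono_on_of_le_Ioo hL e3
          (Continuous.intervalIntegrable (by have := H.fc; have := H.hc; fun_prop) _ _) ?_
        intro x hx
        have hfx := H.f_pos x hx.1 hx.2.le
        have hhx := H.h_pos x hx.1.le hx.2
        simp only [intervalIntegral.integral_const_mul]
        have := inner_c (F := f x) ha hfx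
        calc π / 4 * (h x * ∫ c in (0 : ℝ)..a, max (1 - c ^ 2 / f x ^ 2) 0)
            ≤ π / 4 * (h x * (2 / 3 * f x)) := by gcongr
          _ = π / 6 * (f x * h x) := by ring
    _ = π / 6 * ∫ x in (0 : ℝ)..L, f x * h x := intervalIntegral.integral_const_mul _ _

/-- The lower bound. -/
lemma Profile.total_ge (H : Profile L f h) {a μ : ℝ} (ha : 0 ≤ a)
    (hlow : ∀ c d, 0 ≤ c → 0 ≤ d → c + d ≤ a → μ ≤ fun1 f h c d 0 L) :
    μ * a ^ 2 / 4 - π * a ^ 3 / 6 ≤ ∫ c in (0 : ℝ)..a, ∫ d in (0 : ℝ)..a, act f h c d 0 L := by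
  have hL := H.L_pos.le
  have hc : Continuous (fun p : (ℝ × ℝ) × ℝ => act f h p.1.1 p.1.2 0 p.2) := by
    have := H.prim_cont
    unfold act
    exact this
  have hc2 : Continuous (Function.uncurry fun c d => act f h c d 0 L) :=
    hc.comp (f := fun p : ℝ × ℝ => (p, L)) (by fun_prop)
  have hc3 : ∀ c, Continuous (fun d => act f h c d 0 L) := fun c =>
    hc2.comp (f := fun d : ℝ => (c, d)) (by fun_prop)
  have hWint : IntervalIntegrable (fun c => ∫ d in (0 : ℝ)..a, act f h c d 0 L) volume 0 a :=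
    (intervalIntegral.continuous_parametric_intervalIntegral_of_continuous' hc2 0 a).intervalIntegrable 0 a
  have hinner : ∀ c ∈ Icc 0 a, (μ / 2 - π * c / 2) * (a - c) - π * (a - c) ^ 2 / 4
      ≤ ∫ d in (0 : ℝ)..a, act f h c d 0 L := by
    intro c hc0
    have hac : 0 ≤ a - c := by linarith [hc0.2]
    have h1 : ∫ d in (0 : ℝ)..(a - c), (μ / 2 - π * c / 2 - π / 2 * d)
        ≤ ∫ d in (0 : ℝ)..(a - c), act f h c d 0 L := by
      refine intervalIntegral.integral_mono_on hac (Continuous.intervalIntegrable (by fun_prop) _ _)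
        ((hc3 c).intervalIntegrable _ _) ?_
      intro d hd
      have := hlow c d hc0.1 hd.1 (by linarith [hd.2])
      unfold fun1 at this
      linarith
    have h2 : ∫ d in (0 : ℝ)..(a - c), act f h c d 0 L ≤ ∫ d in (0 : ℝ)..a, act f h c d 0 L :=
      intervalIntegral.integral_mono_interval le_rfl hac (by linarith [hc0.1])
        (Eventually.of_forall fun d => act_nonneg hL) ((hc3 c).intervalIntegrable _ _)
    have h3 : ∫ d in (0 : ℝ)..(a - c), (μ / 2 - π * c / 2 - π / 2 * d)
        = (μ / 2 - π * c / 2) * (a - c) - π * (a - c) ^ 2 / 4 := by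
      rw [intervalIntegral.integral_sub (by simp) (Continuous.intervalIntegrable (by fun_prop) _ _),
        intervalIntegral.integral_const, intervalIntegral.integral_const_mul, integral_id]
      simp only [smul_eq_mul]
      ring
    linarith
  have h4 : ∫ c in (0 : ℝ)..a, ((μ / 2 - π * c / 2) * (a - c) - π * (a - c) ^ 2 / 4)
      ≤ ∫ c in (0 : ℝ)..a, ∫ d in (0 : ℝ)..a, act f h c d 0 L :=
    intervalIntegral.integral_mono_on ha (Continuous.intervalIntegrable (by fun_prop) _ _) hWint
      hinner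
  have h5 : ∫ c in (0 : ℝ)..a, ((μ / 2 - π * c / 2) * (a - c) - π * (a - c) ^ 2 / 4)
      = μ * a ^ 2 / 4 - π * a ^ 3 / 6 := by
    have hder : ∀ c ∈ uIcc 0 a, HasDerivAt (fun c => μ / 2 * (a * c - c ^ 2 / 2)
        - π / 2 * (a * c ^ 2 / 2 - c ^ 3 / 3) + π * (a - c) ^ 3 / 12)
        ((μ / 2 - π * c / 2) * (a - c) - π * (a - c) ^ 2 / 4) c := by
      intro c _
      have k1 : HasDerivAt (fun c : ℝ => a * c - c ^ 2 / 2) (a - c) c := by
        have := ((hasDerivAt_id c).const_mul a).sub (((hasDerivAt_id c).pow 2).div_const 2)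
        refine this.congr_deriv ?_
        simp
      have k2 : HasDerivAt (fun c : ℝ => a * c ^ 2 / 2 - c ^ 3 / 3) (a * c - c ^ 2) c := by
        have := ((((hasDerivAt_id c).pow 2).const_mul a).div_const 2).sub
          (((hasDerivAt_id c).pow 3).div_const 3)
        refine this.congr_deriv ?_
        simp only [id, Nat.cast_ofNat]
        ring
      have k3 : HasDerivAt (fun c : ℝ => π * (a - c) ^ 3 / 12) (-(π * (a - c) ^ 2 / 4)) c := by
        have := (((((hasDerivAt_id c).const_sub a).pow 3).const_mul π).div_const 12)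
        refine this.congr_deriv ?_
        simp only [id, Nat.cast_ofNat]
        ring
      refine (((k1.const_mul (μ / 2)).sub (k2.const_mul (π / 2))).add k3).congr_deriv ?_
      ring
    rw [intervalIntegral.integral_eq_sub_of_hasDerivAt hder
      (Continuous.intervalIntegrable (by fun_prop) _ _)]
    ring
  linarith

end

end DWS
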