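import Pool.Agent.DWS.Closed
import Pool.Agent.DWS.Vol

/-!
# The sharp inequality
-/

namespace DWS

open Set MeasureTheory Real Filter Topology

section
variable {L : ℝ} {f h : ℝ → ℝ}

/-- The norm of the diagonal Killing field is bounded below. -/
lemma Profile.rho_bound (H : Profile L f h) {a : ℝ} (ha : 0 < a)
    (hlong : ∀ (r θ φ : ℝ → ℝ) (T : ℝ), IsUnitGeodesic f h r θ φ → Closes L r θ φ T →
      2 * π * a < T) : ∀ x ∈ Icc 0 L, a ^ 2 < f x ^ 2 + h x ^ 2 := by
  have hπ := pi_pos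
  have hfc := H.fc
  have hhc := H.hc
  obtain ⟨z, hz, hmin⟩ := isCompact_Icc.exists_isMinOn (nonempty_Icc.2 H.L_pos.le)
    (Continuous.continuousOn (s := Icc 0 L) (f := fun x => f x ^ 2 + h x ^ 2) (by fun_prop))
  have hder : ∀ x, HasDerivAt (fun x => f x ^ 2 + h x ^ 2)
      (2 * (f x * deriv f x + h x * deriv h x)) x := by
    intro x
    have := ((H.fdiff x).hasDerivAt.pow 2).add ((H.hdiff x).hasDerivAt.pow 2)
    refine this.congr_deriv ?_
    simp only [Nat.cast_ofNat, pow_one, Nat.add_one_sub_one]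
    ring
  have hcrit : f z * deriv f z + h z * deriv h z = 0 := by
    rcases eq_or_lt_of_le hz.1 with h1 | h1
    · rw [← h1, H.f_zero, H.deriv_h_zero]; ring
    rcases eq_or_lt_of_le hz.2 with h2 | h2
    · rw [h2, H.h_L, H.deriv_f_L]; ring
    · have hloc : IsLocalMin (fun x => f x ^ 2 + h x ^ 2) z :=
        hmin.isLocalMin (Icc_mem_nhds h1 h2)
      have := hloc.hasDerivAt_eq_zero (hder z)
      linarith
  have hpos : 0 < f z ^ 2 + h z ^ 2 := by
    rcases eq_or_lt_of_le hz.1 with h1 | h1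
    · have := H.h_pos z hz.1 (by rw [← h1]; exact H.L_pos)
      positivity
    · have := H.f_pos z h1 hz.2
      positivity
  set ρ := √(f z ^ 2 + h z ^ 2) with hρ
  have hρpos : 0 < ρ := Real.sqrt_pos.2 hpos
  have hρsq : ρ ^ 2 = f z ^ 2 + h z ^ 2 := Real.sq_sqrt hpos.le
  have h1 := hlong _ _ _ _ (geodesic_circle hρpos hρsq.symm hcrit) (circle_closes (L := L) hρpos)
  have h2 : a < ρ := by nlinarith
  intro x hx
  have h3 : f z ^ 2 + h z ^ 2 ≤ f x ^ 2 + h x ^ 2 := hmin hx
  rw [← hρsq] at h3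
  nlinarith

/-- The functional is larger than `π a`. -/
lemma Profile.lower (H : Profile L f h) {a : ℝ} (ha : 0 < a)
    (hlong : ∀ (r θ φ : ℝ → ℝ) (T : ℝ), IsUnitGeodesic f h r θ φ → Closes L r θ φ T →
      2 * π * a < T) :
    ∃ μ, π * a < μ ∧ ∀ c d, 0 ≤ c → 0 ≤ d → c + d ≤ a → μ ≤ fun1 f h c d 0 L := by
  have hπ := pi_pos
  have hrho := H.rho_bound ha hlong
  obtain ⟨c, d, α, β, hA, hmin⟩ := H.exists_min ha.le
  refine ⟨fun1 f h c d α β, ?_, fun c' d' h1 h2 h3 => hmin _ _ _ _ (H.adm_full h1 h2 h3)⟩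
  by_contra hcon
  push Not at hcon
  rcases eq_or_lt_of_le (add_nonneg hA.hc hA.hd) with h0 | h0
  · -- no momentum: the meridian
    have hc0 : c = 0 := by linarith [hA.hc, hA.hd]
    have hd0 : d = 0 := by linarith [hA.hc, hA.hd]
    have h1 : α = 0 := by
      have h2 := hA.fα
      rw [hc0, zero_mul] at h2
      rcases eq_or_lt_of_le hA.hα with h3 | h3
      · exact h3.symm
      · have := H.f_pos α h3 (hA.hαβ.trans hA.hβ)
        nlinarith
    have h2 : β = L := by
      have h2 := hA.hβ2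
      rw [hd0, zero_mul] at h2
      rcases eq_or_lt_of_le hA.hβ with h3 | h3
      · exact h3
      · have := H.h_pos β (hA.hα.trans hA.hαβ) h3
        nlinarith
    have h3 : fun1 f h c d α β = 2 * L := by
      unfold fun1 act
      rw [hc0, hd0, h1, h2]
      have : (fun x => √(pot f h 0 0 x)) = fun _ => 1 := by
        funext x; unfold pot; simp
      rw [this]
      simp
    have h4 := hlong _ _ _ _ (geodesic_meridian f h) (meridian_closes H.L_pos)
    rw [h3] at hcon
    linarith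
  · obtain ⟨α', β', h1, h2, h3, hA', hin⟩ := H.find_well hA hrho
    have hle : fun1 f h c d α' β' ≤ fun1 f h c d α β := by
      unfold fun1
      have := H.act_mono (c := c) (d := d) h1 h2.le h3
      linarith
    have hact : 0 < act f h c d α' β' := by
      unfold act
      refine intervalIntegral.intervalIntegral_pos_of_pos_on (H.ii _ _ _ _) ?_ h2
      intro x hx
      have hf := H.f_pos x (hA'.hα.trans_lt hx.1) (hx.2.le.trans hA'.hβ)
      have hh := H.h_pos x (hA'.hα.trans hx.1.le) (hx.2.trans_le hA'.hβ)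
      exact Real.sqrt_pos.2 ((pot_pos_iff hf.ne' hh.ne').2 (hin x hx))
    have hlt : c + d < a := by
      have h5 := hle.trans hcon
      unfold fun1 at h5
      have h6 : π * (c + d) < π * a := by linarith
      exact lt_of_mul_lt_mul_left h6 hπ.le
    have m : Cr L f h a c d α' β' :=
      ⟨H, hA', fun c' d' α'' β'' h7 => hle.trans (hmin _ _ _ _ h7), h2, hin, h0, hlt, hrho⟩
    obtain ⟨r, θ, φ, T, g1, g2, g3⟩ := m.closed
    have h8 := hlong r θ φ T g1 g2
    rw [g3] at h8
    have := hle.trans hcon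
    linarith

/-- Every doubly warped metric on the three-sphere has a closed geodesic of length `T` with
`T³ ≤ 4 π vol`. -/
theorem main (H : Profile L f h) : ∃ (r θ φ : ℝ → ℝ) (T : ℝ), IsUnitGeodesic f h r θ φ ∧
    Closes L r θ φ T ∧ T ^ 3 ≤ 4 * π * vol f h L := by
  by_contra hcon
  push Not at hcon
  have hL := H.L_pos
  have hπ := pi_pos
  have hfc := H.fc
  have hhc := H.hc
  set V := vol f h L with hV
  set I := ∫ x in (0 : ℝ)..L, f x * h x with hI
  have hVeq : V = 4 * π ^ 2 * I := by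
    rw [hV, vol, intervalIntegral.integral_const_mul]
  have hIpos : 0 < I := by
    refine intervalIntegral.intervalIntegral_pos_of_pos_on
      (Continuous.intervalIntegrable (by fun_prop) _ _) ?_ hL
    intro x hx
    exact mul_pos (H.f_pos x hx.1 hx.2.le) (H.h_pos x hx.1.le hx.2)
  have hVpos : 0 < V := by rw [hVeq]; positivity
  obtain ⟨l, hl, hl3⟩ : ∃ l : ℝ, 0 < l ∧ l ^ 3 = 4 * π * V := by
    have h0 : 0 < 4 * π * V := by positivity
    refine ⟨(4 * π * V) ^ ((1 : ℝ) / 3), Real.rpow_pos_of_pos h0 _, ?_⟩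
    rw [← Real.rpow_natCast, ← Real.rpow_mul h0.le]
    norm_num
  set a := l / (2 * π) with ha
  have hapos : 0 < a := by positivity
  have hla : l = 2 * π * a := by rw [ha]; field_simp
  have hlong : ∀ (r θ φ : ℝ → ℝ) (T : ℝ), IsUnitGeodesic f h r θ φ → Closes L r θ φ T →
      2 * π * a < T := by
    intro r θ φ T h1 h2
    have h3 := hcon r θ φ T h1 h2
    rw [← hl3, hla] at h3
    exact lt_of_pow_lt_pow_left₀ 3 h2.1.le h3
  obtain ⟨μ, hμ, hlow⟩ := H.lower hapos hlong
  have h1 := (H.total_ge hapos.le hlow).trans (H.total_le hapos.le)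
  rw [← hI] at h1
  -- `I > a³ / 2`
  have h2 : π * a * a ^ 2 / 4 < μ * a ^ 2 / 4 := by
    have : 0 < a ^ 2 := by positivity
    nlinarith
  have h3 : π * (a ^ 3 / 12) < π * (I / 6) := by nlinarith
  have h4 : a ^ 3 / 12 < I / 6 := lt_of_mul_lt_mul_left h3 hπ.le
  have h5 : l ^ 3 = 8 * π ^ 3 * a ^ 3 := by rw [hla]; ring
  have h6 : 4 * π * V = 16 * π ^ 3 * I := by rw [hVeq]; ring
  rw [h5, h6] at hl3
  have h7 : 0 < π ^ 3 := by positivity
  nlinarith

end

end DWS
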