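import Pool.Agent.DWS.Basic

/-!
# The round sphere
-/

namespace DWS

open Set MeasureTheory Real Filter Topology

lemma round_profile : Profile (π / 2) sin cos := by
  have hπ := pi_pos
  refine ⟨by positivity, contDiff_sin, contDiff_cos, sin_neg, ?_, cos_neg, ?_, ?_, ?_, ?_, ?_⟩
  · intro r; rw [show 2 * (π / 2) - r = π - r by ring, sin_pi_sub]
  · intro r; rw [show 2 * (π / 2) - r = π - r by ring, cos_pi_sub]
  · intro r h1 h2; exact sin_pos_of_pos_of_lt_pi h1 (by linarith)
  · intro r h1 h2; exact cos_pos_of_mem_Ioo ⟨by linarith, h2⟩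
  · rw [Real.deriv_sin]; exact cos_zero
  · rw [Real.deriv_cos, sin_pi_div_two]

lemma round_vol : vol sin cos (π / 2) = 2 * π ^ 2 := by
  unfold vol
  rw [intervalIntegral.integral_const_mul]
  have hder : ∀ x ∈ uIcc 0 (π / 2), HasDerivAt (fun x => sin x ^ 2 / 2) (sin x * cos x) x := by
    intro x _
    have := ((hasDerivAt_sin x).pow 2).div_const 2
    refine this.congr_deriv ?_
    simp only [Nat.cast_ofNat]
    ring
  rw [intervalIntegral.integral_eq_sub_of_hasDerivAt hder
    (Continuous.intervalIntegrable (by fun_prop) _ _)]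
  rw [sin_pi_div_two, sin_zero]
  ring

/-- On the round sphere every closed geodesic has length at least `2 π`. -/
lemma round_length {r θ φ : ℝ → ℝ} {T : ℝ} (g : IsUnitGeodesic sin cos r θ φ)
    (hT : Closes (π / 2) r θ φ T) : 2 * π ≤ T := by
  have hr : ∀ t, HasDerivAt r (deriv r t) t := fun t =>
    (g.smooth_r.differentiable (by simp) t).hasDerivAt
  have hθ : ∀ t, HasDerivAt θ (deriv θ t) t := fun t =>
    (g.smooth_θ.differentiable (by simp) t).hasDerivAt
  have hφ : ∀ t, HasDerivAt φ (deriv φ t) t := fun t =>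
    (g.smooth_φ.differentiable (by simp) t).hasDerivAt
  have hr2 : ∀ t, HasDerivAt (deriv r) (deriv (deriv r) t) t := fun t =>
    ((contDiff_infty_iff_deriv.1 g.smooth_r).2.differentiable (by simp) t).hasDerivAt
  have hθ2 : ∀ t, HasDerivAt (deriv θ) (deriv (deriv θ) t) t := fun t =>
    ((contDiff_infty_iff_deriv.1 g.smooth_θ).2.differentiable (by simp) t).hasDerivAt
  have hφ2 : ∀ t, HasDerivAt (deriv φ) (deriv (deriv φ) t) t := fun t =>
    ((contDiff_infty_iff_deriv.1 g.smooth_φ).2.differentiable (by simp) t).hasDerivAt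
  have hrad : ∀ t, deriv (deriv r) t = sin (r t) * cos (r t) * (deriv θ t) ^ 2
      - sin (r t) * cos (r t) * (deriv φ t) ^ 2 := by
    intro t
    have := g.radial t
    rw [Real.deriv_sin, Real.deriv_cos] at this
    rw [this]; ring
  have haθ : ∀ t, sin (r t) * deriv (deriv θ) t = -(2 * cos (r t) * deriv r t * deriv θ t) := by
    intro t
    have := g.angular_θ t
    rw [Real.deriv_sin] at this
    linarith
  have haφ : ∀ t, cos (r t) * deriv (deriv φ) t = 2 * sin (r t) * deriv r t * deriv φ t := by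
    intro t
    have := g.angular_φ t
    rw [Real.deriv_cos] at this
    linarith
  -- the four coordinates, differentiated with respect to fixed phases `A`, `B`
  set q : ℝ → ℝ := fun t => sin (r t) * cos (θ t - θ 0) * sin (r 0)
    + cos (r t) * cos (φ t - φ 0) * cos (r 0) with hq
  set q1 : ℝ → ℝ := fun t =>
    (cos (r t) * deriv r t * cos (θ t - θ 0) - sin (r t) * deriv θ t * sin (θ t - θ 0)) * sin (r 0)
    + (-(sin (r t) * deriv r t * cos (φ t - φ 0)) - cos (r t) * deriv φ t * sin (φ t - φ 0))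
      * cos (r 0) with hq1
  have d1 : ∀ t, HasDerivAt q (q1 t) t := by
    intro t
    have e1 := (((hr t).sin.mul ((hθ t).sub_const (θ 0)).cos).mul_const (sin (r 0))).add
      (((hr t).cos.mul ((hφ t).sub_const (φ 0)).cos).mul_const (cos (r 0)))
    refine e1.congr_deriv ?_
    simp only [hq1]
    ring
  have d2 : ∀ t, HasDerivAt q1 (-q t) t := by
    intro t
    have hs := g.unit_speed t
    have hsc := sin_sq_add_cos_sq (r t)
    have a1 := (((hr t).cos.mul (hr2 t)).mul ((hθ t).sub_const (θ 0)).cos).sub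
      (((hr t).sin.mul (hθ2 t)).mul ((hθ t).sub_const (θ 0)).sin)
    have a2 := (((hr t).sin.mul (hr2 t)).mul ((hφ t).sub_const (φ 0)).cos).neg.sub
      (((hr t).cos.mul (hφ2 t)).mul ((hφ t).sub_const (φ 0)).sin)
    have a3 := (a1.mul_const (sin (r 0))).add (a2.mul_const (cos (r 0)))
    refine a3.congr_deriv ?_
    simp only [hq, Pi.mul_apply]
    have k1 : cos (r t) * deriv (deriv r) t - sin (r t) * (deriv r t) ^ 2
        - sin (r t) * (deriv θ t) ^ 2 = - sin (r t) := by
      rw [hrad]
      have e : (deriv r t) ^ 2 = 1 - sin (r t) ^ 2 * (deriv θ t) ^ 2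
          - cos (r t) ^ 2 * (deriv φ t) ^ 2 := by linarith
      rw [e]
      have e2 : cos (r t) ^ 2 = 1 - sin (r t) ^ 2 := by linarith
      have e3 : cos (r t) * (sin (r t) * cos (r t) * (deriv θ t) ^ 2
          - sin (r t) * cos (r t) * (deriv φ t) ^ 2)
          = cos (r t) ^ 2 * (sin (r t) * (deriv θ t) ^ 2 - sin (r t) * (deriv φ t) ^ 2) := by ring
      rw [e3, e2]
      ring
    have k2 : -(sin (r t) * deriv (deriv r) t) - cos (r t) * (deriv r t) ^ 2
        - cos (r t) * (deriv φ t) ^ 2 = - cos (r t) := by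
      rw [hrad]
      have e : (deriv r t) ^ 2 = 1 - sin (r t) ^ 2 * (deriv θ t) ^ 2
          - cos (r t) ^ 2 * (deriv φ t) ^ 2 := by linarith
      rw [e]
      have e2 : sin (r t) ^ 2 = 1 - cos (r t) ^ 2 := by linarith
      have e3 : sin (r t) * (sin (r t) * cos (r t) * (deriv θ t) ^ 2
          - sin (r t) * cos (r t) * (deriv φ t) ^ 2)
          = sin (r t) ^ 2 * (cos (r t) * (deriv θ t) ^ 2 - cos (r t) * (deriv φ t) ^ 2) := by ring
      rw [e3, e2]
      ring
    have k3 := haθ t
    have k4 := haφ t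
    linear_combination (cos (θ t - θ 0) * sin (r 0)) * k1 + (cos (φ t - φ 0) * cos (r 0)) * k2
      - (sin (θ t - θ 0) * sin (r 0)) * k3 - (sin (φ t - φ 0) * cos (r 0)) * k4
  -- `q = cos`
  have hq0 : q 0 = 1 := by
    simp only [hq, sub_self, cos_zero, mul_one]
    have := sin_sq_add_cos_sq (r 0)
    nlinarith
  have hq10 : q1 0 = 0 := by
    simp only [hq1, sub_self, cos_zero, sin_zero, mul_one, mul_zero, sub_zero]
    ring
  have hcos : ∀ t, q t = cos t := by
    intro t
    have e1 : ∀ t, HasDerivAt (fun t => (q t - cos t) ^ 2 + (q1 t + sin t) ^ 2) 0 t := by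
      intro t
      have := (((d1 t).sub (hasDerivAt_cos t)).pow 2).add (((d2 t).add (hasDerivAt_sin t)).pow 2)
      refine this.congr_deriv ?_
      simp only [Nat.cast_ofNat, Pi.sub_apply, Pi.add_apply]
      ring
    have e2 := is_const_of_deriv_eq_zero (fun t => (e1 t).differentiableAt)
      (fun t => (e1 t).deriv) t 0
    simp only [hq0, hq10, cos_zero, sin_zero] at e2
    nlinarith [sq_nonneg (q t - cos t), sq_nonneg (q1 t + sin t)]
  -- closing gives `q T = 1`
  have hcl := hT.2 0
  rw [zero_add] at hcl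
  have hx : ∀ x : ℝ, π * x / (2 * (π / 2)) = x := fun x => by field_simp
  unfold spherePoint at hcl
  rw [hx, hx] at hcl
  have c1 := congrArg Prod.fst hcl
  have c2 := congrArg Prod.snd hcl
  simp only at c1 c2
  have re : ∀ (s x : ℝ), ((s : ℂ) * Complex.exp (x * Complex.I)).re = s * cos x := by
    intro s x
    rw [Complex.re_ofReal_mul, Complex.exp_ofReal_mul_I_re]
  have im : ∀ (s x : ℝ), ((s : ℂ) * Complex.exp (x * Complex.I)).im = s * sin x := by
    intro s x
    rw [Complex.im_ofReal_mul, Complex.exp_ofReal_mul_I_im]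
  have r1 := congrArg Complex.re c1
  have i1 := congrArg Complex.im c1
  have r2 := congrArg Complex.re c2
  have i2 := congrArg Complex.im c2
  rw [re, re] at r1 r2
  rw [im, im] at i1 i2
  have hqT : q T = 1 := by
    simp only [hq, cos_sub]
    have := sin_sq_add_cos_sq (r 0)
    have s1 := sin_sq_add_cos_sq (θ 0)
    have s2 := sin_sq_add_cos_sq (φ 0)
    linear_combination (cos (θ 0) * sin (r 0)) * r1 + (sin (θ 0) * sin (r 0)) * i1
      + (cos (φ 0) * cos (r 0)) * r2 + (sin (φ 0) * cos (r 0)) * i2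
      + (sin (r 0) ^ 2) * s1 + (cos (r 0) ^ 2) * s2 + this
  rw [hcos] at hqT
  obtain ⟨n, hn⟩ := (cos_eq_one_iff T).1 hqT
  have hTpos := hT.1
  rw [← hn] at hTpos ⊢
  have hπ := pi_pos
  have hn1 : (0 : ℝ) < n := by
    by_contra hneg
    push Not at hneg
    nlinarith
  have hn2 : (1 : ℝ) ≤ n := by
    have : (0 : ℤ) < n := by exact_mod_cast hn1
    exact_mod_cast this
  nlinarith

end DWS
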